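import Pool.Agent.Q99.FP.Hit

/-!
# The first hitting argument
-/

set_option autoImplicit false
open Filter Topology MeasureTheory Set Matrix
open scoped Real

namespace Q99.FP

variable {n : ℕ}

theorem bf_cont (P Q : Matrix (Fin n) (Fin n) ℂ) (l : Fin n → ℂ) :
    Continuous (fun p : ℝ × (Fin n → ℂ) => bf p.2 (At P Q l p.1) p.2) := by
  unfold At
  simp only [bf_Phi, Matrix.vecMul, Matrix.mulVec, dotProduct, Pi.star_apply]
  fun_prop

theorem nq_cont : Continuous (fun x : Fin n → ℂ => nq x) := by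
  unfold nq
  fun_prop

theorem sphere_compact : IsCompact {x : Fin n → ℂ | nq x = 1} := by
  apply Metric.isCompact_of_isClosed_isBounded
  · exact isClosed_eq nq_cont continuous_const
  · rw [Metric.isBounded_iff_subset_closedBall 0]
    refine ⟨1, fun x hx => ?_⟩
    rw [mem_closedBall_zero_iff, pi_norm_le_iff_of_nonneg zero_le_one]
    intro j
    have h1 : ‖x j‖ ^ 2 ≤ nq x := Finset.single_le_sum (f := fun j => ‖x j‖ ^ 2) (fun _ _ => sq_nonneg _) (Finset.mem_univ j)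
    have hx1 : nq x = 1 := hx
    rw [hx1] at h1
    exact (sq_le_one_iff₀ (norm_nonneg _)).1 h1

theorem nq_smul (c : ℂ) (x : Fin n → ℂ) : nq (c • x) = ‖c‖ ^ 2 * nq x := by
  unfold nq
  rw [Finset.mul_sum]
  apply Finset.sum_congr rfl
  intro j _
  rw [Pi.smul_apply, smul_eq_mul, norm_mul, mul_pow]

theorem rad_scale {M : Matrix (Fin n) (Fin n) ℂ} {h : ℝ} (hM : ∀ y, nq y = 1 → ‖bf y M y‖ ≤ h) (y : Fin n → ℂ) :
    ‖bf y M y‖ ≤ h * nq y := by
  by_cases hy : y = 0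
  · rw [hy]
    unfold bf nq
    simp
  · have hpos := nq_pos hy
    obtain ⟨r, hr⟩ : ∃ r, r = √(nq y) := ⟨_, rfl⟩
    have hr0 : 0 < r := by rw [hr]; exact Real.sqrt_pos.2 hpos
    have hr2 : r ^ 2 = nq y := by rw [hr]; exact Real.sq_sqrt hpos.le
    have h1 := hM (((r⁻¹ : ℝ) : ℂ) • y) (by
      rw [nq_smul, Complex.norm_real, Real.norm_eq_abs, abs_of_pos (by positivity), ← hr2]
      field_simp)
    rw [bf_smul_left, bf_smul_right, norm_mul, norm_mul, RCLike.norm_conj, Complex.norm_real, Real.norm_eq_abs,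
      abs_of_pos (by positivity : (0 : ℝ) < r⁻¹)] at h1
    rw [← hr2]
    have h2 : r⁻¹ * (r⁻¹ * ‖bf y M y‖) = ‖bf y M y‖ / r ^ 2 := by field_simp
    rw [h2, div_le_iff₀ (by positivity)] at h1
    exact h1

theorem deriv_nonpos_of {φ : ℝ → ℝ} {φ' t τ : ℝ} (h : HasDerivAt φ φ' τ) (h0 : φ τ = 0) (ht : t < τ)
    (hpos : ∀ x, t ≤ x → x < τ → 0 ≤ φ x) : φ' ≤ 0 := by
  have h1 := (hasDerivAt_iff_tendsto_slope.1 h).mono_left (nhdsWithin_mono τ (show Iio τ ⊆ {τ}ᶜ from fun x hx => ne_of_lt hx))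
  refine le_of_tendsto h1 ?_
  have h2 : Ico t τ ∈ 𝓝[<] τ := Ico_mem_nhdsLT ht
  filter_upwards [h2] with x hx
  rw [slope_def_field, h0, sub_zero]
  have h3 := hpos x hx.1 hx.2
  have h4 : x - τ < 0 := by linarith [hx.2]
  exact div_nonpos_of_nonneg_of_nonpos h3 h4.le

/-- Main theorem for diagonalizable matrices. -/
theorem climb {P Q : Matrix (Fin n) (Fin n) ℂ} (hQP : Q * P = 1) (hPQ : P * Q = 1) {l : Fin n → ℂ}
    (hl : ∀ j, |(l j).im| < π / 2) (hacc1 : ∀ y, 0 ≤ (bf y (At P Q l 1) y).re) {t : ℝ} (ht0 : 0 < t) (ht1 : t < 1)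
    {x₁ : Fin n → ℂ} (hx₁ : nq x₁ = 1) (hG : 0 < ‖bf x₁ (At P Q l 1) x₁‖) :
    ∃ y, nq y = 1 ∧ ‖bf x₁ (At P Q l 1) x₁‖ ^ t ≤ ‖bf y (At P Q l t) y‖ := by
  by_contra hcon
  push Not at hcon
  obtain ⟨G, hGdef⟩ : ∃ G, G = ‖bf x₁ (At P Q l 1) x₁‖ := ⟨_, rfl⟩
  rw [← hGdef] at hcon hG
  have hlre : ∀ j, 0 < (Complex.exp (l j)).re := fun j => by
    rw [Complex.exp_re]
    exact mul_pos (Real.exp_pos _) (Real.cos_pos_of_mem_Ioo (abs_lt.1 (hl j)))
  have hloge : ∀ j, Complex.log (Complex.exp (l j)) = l j := fun j => by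
    have := abs_lt.1 (hl j)
    have := Real.pi_pos
    apply Complex.log_exp
    · linarith
    · linarith
  -- accretivity
  have hacc : ∀ τ : ℝ, 0 < τ → τ ≤ 1 → ∀ y, 0 ≤ (bf y (At P Q l τ) y).re := by
    intro τ h0 h1 y
    rcases eq_or_lt_of_le h1 with h2 | h2
    · rw [h2]
      exact hacc1 y
    · have e1 : At P Q l 1 = Phi P Q (fun j => Complex.exp (l j)) := by
        unfold At
        congr 1
        funext j
        rw [Complex.ofReal_one, one_mul]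
      have h3 := pow_acc hQP hPQ (a := fun j => Complex.exp (l j)) (fun y => by rw [← e1]; exact hacc1 y) hlre h0 h2 y
      simp only [hloge] at h3
      exact h3
  have hF : Continuous (fun p : ℝ × (Fin n → ℂ) => ‖bf p.2 (At P Q l p.1) p.2‖) := (bf_cont P Q l).norm
  -- the maximum at t
  obtain ⟨y₀, hy₀, hmax⟩ := (sphere_compact (n := n)).exists_isMaxOn ⟨x₁, hx₁⟩
    ((hF.comp (continuous_const.prodMk continuous_id)).continuousOn (s := {x : Fin n → ℂ | nq x = 1}) (f := fun x => ‖bf x (At P Q l t) x‖))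
  have hm : ∀ y, nq y = 1 → ‖bf y (At P Q l t) y‖ ≤ ‖bf y₀ (At P Q l t) y₀‖ := fun y hy => hmax hy
  have hm1 := hcon y₀ hy₀
  obtain ⟨m, hmdef⟩ : ∃ m, m = ‖bf y₀ (At P Q l t) y₀‖ := ⟨_, rfl⟩
  rw [← hmdef] at hm hm1
  obtain ⟨g, hg⟩ : ∃ g, g = Real.log G := ⟨_, rfl⟩
  have hGt : G ^ t = Real.exp (t * g) := by
    rw [Real.rpow_def_of_pos hG, hg, mul_comm]
  have hGe : Real.exp g = G := by rw [hg, Real.exp_log hG]
  rw [hGt] at hm1
  obtain ⟨ε, hε0, hε⟩ : ∃ ε > 0, m < Real.exp (t * g - ε * (t * (1 - t))) := by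
    have hc : Continuous (fun ε : ℝ => Real.exp (t * g - ε * (t * (1 - t)))) := by fun_prop
    have h1 : ∀ᶠ ε in 𝓝[>] (0 : ℝ), m < Real.exp (t * g - ε * (t * (1 - t))) := by
      apply (hc.tendsto 0).mono_left nhdsWithin_le_nhds |>.eventually
      apply lt_mem_nhds
      rw [zero_mul, sub_zero]
      exact hm1
    obtain ⟨ε, h2, h3⟩ := (h1.and self_mem_nhdsWithin).exists
    exact ⟨ε, h3, h2⟩
  obtain ⟨h, hh⟩ : ∃ h : ℝ → ℝ, h = fun τ => Real.exp ((g - ε) * τ + ε * τ ^ 2) := ⟨_, rfl⟩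
  have hhc : Continuous h := by rw [hh]; fun_prop
  have hh1 : h 1 = G := by
    rw [hh, ← hGe]
    show Real.exp ((g - ε) * 1 + ε * 1 ^ 2) = Real.exp g
    congr 1
    ring
  have hht : m < h t := by
    rw [hh]
    show m < Real.exp ((g - ε) * t + ε * t ^ 2)
    have : (g - ε) * t + ε * t ^ 2 = t * g - ε * (t * (1 - t)) := by ring
    rw [this]
    exact hε
  -- the compact set
  obtain ⟨K, hK⟩ : ∃ K : Set (ℝ × (Fin n → ℂ)), K = (Icc t 1 ×ˢ {x : Fin n → ℂ | nq x = 1}) ∩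
      {p | h p.1 ≤ ‖bf p.2 (At P Q l p.1) p.2‖} := ⟨_, rfl⟩
  have hKc : IsCompact K := by
    rw [hK]
    exact (isCompact_Icc.prod sphere_compact).inter_right (isClosed_le (hhc.comp continuous_fst) hF)
  have hKne : K.Nonempty := by
    refine ⟨(1, x₁), ?_⟩
    rw [hK]
    refine ⟨⟨⟨ht1.le, le_rfl⟩, hx₁⟩, ?_⟩
    show h 1 ≤ ‖bf x₁ (At P Q l 1) x₁‖
    rw [hh1, hGdef]
  obtain ⟨⟨τ, x₀⟩, hmem, hmin⟩ := hKc.exists_isMinOn hKne continuous_fst.continuousOn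
  rw [hK] at hmem
  obtain ⟨⟨⟨hτt, hτ1⟩, hx₀⟩, hτx⟩ := hmem
  have hτt' : t ≤ τ := hτt
  have hτ1' : τ ≤ 1 := hτ1
  have hx₀' : nq x₀ = 1 := hx₀
  have hτx' : h τ ≤ ‖bf x₀ (At P Q l τ) x₀‖ := hτx
  have hlt : ∀ σ, t ≤ σ → σ < τ → ∀ y, nq y = 1 → ‖bf y (At P Q l σ) y‖ < h σ := by
    intro σ h1 h2 y hy
    by_contra hc
    push Not at hc
    have h3 : ((σ, y) : ℝ × (Fin n → ℂ)) ∈ K := by
      rw [hK]
      exact ⟨⟨⟨h1, h2.le.trans hτ1'⟩, hy⟩, hc⟩
    have h4 : τ ≤ σ := hmin h3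
    linarith
  have hτgt : t < τ := by
    rcases eq_or_lt_of_le hτt' with h1 | h1
    · exfalso
      rw [← h1] at hτx'
      have := hm x₀ hx₀'
      linarith
    · exact h1
  have hτ0 : 0 < τ := ht0.trans hτgt
  have hle : ∀ y, nq y = 1 → ‖bf y (At P Q l τ) y‖ ≤ h τ := by
    intro y hy
    have h1 : Tendsto (fun σ : ℝ => h σ - ‖bf y (At P Q l σ) y‖) (𝓝[<] τ) (𝓝 (h τ - ‖bf y (At P Q l τ) y‖)) := by
      apply Tendsto.mono_left _ nhdsWithin_le_nhds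
      have h2 : Continuous (fun σ : ℝ => h σ - ‖bf y (At P Q l σ) y‖) :=
        hhc.sub (hF.comp (continuous_id.prodMk continuous_const))
      exact h2.tendsto τ
    have h3 : 0 ≤ h τ - ‖bf y (At P Q l τ) y‖ := by
      refine ge_of_tendsto h1 ?_
      filter_upwards [Ico_mem_nhdsLT hτgt] with σ hσ
      exact (sub_pos.2 (hlt σ hσ.1 hσ.2 y hy)).le
    linarith
  have heq : ‖bf x₀ (At P Q l τ) x₀‖ = h τ := le_antisymm (hle x₀ hx₀') hτx'
  obtain ⟨lam, hlam⟩ : ∃ lam : ℝ, lam = (g - ε) * τ + ε * τ ^ 2 := ⟨_, rfl⟩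
  have hhτ : h τ = Real.exp lam := by rw [hh, hlam]
  have hhpos : 0 < h τ := by rw [hhτ]; exact Real.exp_pos _
  -- normalization
  obtain ⟨a, ha⟩ : ∃ a : Fin n → ℂ, a = fun j => Complex.exp (τ * l j - lam) := ⟨_, rfl⟩
  have haexp : ∀ j, a j = (((h τ)⁻¹ : ℝ) : ℂ) * Complex.exp (τ * l j) := by
    intro j
    rw [ha, hhτ, ← Real.exp_neg]
    show Complex.exp (τ * l j - lam) = _
    rw [Complex.ofReal_exp, ← Complex.exp_add]
    congr 1
    push_cast
    ring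
  have hPhi : Phi P Q a = (((h τ)⁻¹ : ℝ) : ℂ) • At P Q l τ := by
    unfold At
    rw [Phi_smul]
    congr 1
    funext j
    exact haexp j
  have hloga : ∀ j, Complex.log (a j) = τ * l j - lam := by
    intro j
    have h1 : (τ * l j - lam : ℂ).im = τ * (l j).im := by simp
    have h2 := abs_lt.1 (hl j)
    have hpi := Real.pi_pos
    have h3 : -(π / 2) < τ * (l j).im := by nlinarith
    have h4 : τ * (l j).im < π / 2 := by nlinarith
    rw [ha]
    apply Complex.log_exp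
    · rw [h1]
      linarith
    · rw [h1]
      linarith
  have hare : ∀ j, 0 < (a j).re := by
    intro j
    rw [haexp, Complex.re_ofReal_mul, Complex.exp_re]
    have h1 : (τ * l j : ℂ).im = τ * (l j).im := by simp
    have h2 := abs_lt.1 (hl j)
    have hpi := Real.pi_pos
    have h3 : -(π / 2) < τ * (l j).im := by nlinarith
    have h4 : τ * (l j).im < π / 2 := by nlinarith
    rw [h1]
    have := Real.cos_pos_of_mem_Ioo ⟨h3, h4⟩
    have := Real.exp_pos (τ * l j : ℂ).re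
    positivity
  have hinv : 0 < (h τ)⁻¹ := inv_pos.2 hhpos
  have hacca : ∀ y, 0 ≤ (bf y (Phi P Q a) y).re := by
    intro y
    rw [hPhi, bf_smul, Complex.re_ofReal_mul]
    exact mul_nonneg hinv.le (hacc τ hτ0 hτ1' y)
  have hrada : ∀ y, ‖bf y (Phi P Q a) y‖ ≤ nq y := by
    intro y
    rw [hPhi, bf_smul, norm_mul, Complex.norm_real, Real.norm_eq_abs, abs_of_pos hinv]
    have h1 := mul_le_mul_of_nonneg_left (rad_scale hle y) hinv.le
    have h2 : (h τ)⁻¹ * (h τ * nq y) = nq y := by field_simp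
    rw [h2] at h1
    exact h1
  have hnorma : ‖bf x₀ (Phi P Q a) x₀‖ = 1 := by
    rw [hPhi, bf_smul, norm_mul, Complex.norm_real, Real.norm_eq_abs, abs_of_pos hinv, heq, inv_mul_cancel₀ hhpos.ne']
  have hmain := inf_ineq2 hQP hPQ hacca hrada hare hx₀' hnorma
  obtain ⟨ζ, hζ⟩ : ∃ ζ, ζ = bf x₀ (Phi P Q a) x₀ := ⟨_, rfl⟩
  rw [← hζ] at hmain hnorma
  have hζA : bf x₀ (At P Q l τ) x₀ = ((h τ : ℝ) : ℂ) * ζ := by
    rw [hζ, hPhi, bf_smul, ← mul_assoc, ← Complex.ofReal_mul, mul_inv_cancel₀ hhpos.ne', Complex.ofReal_one, one_mul]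
  have hζζ : (starRingEnd ℂ) ζ * ζ = 1 := by
    rw [mul_comm, Complex.mul_conj, Complex.normSq_eq_norm_sq, hnorma]
    norm_num
  obtain ⟨B, hB⟩ : ∃ B, B = bf x₀ (Phi P Q (fun j => l j * Complex.exp (τ * l j))) x₀ := ⟨_, rfl⟩
  obtain ⟨D, hD⟩ : ∃ D, D = ((starRingEnd ℂ) ζ * B).re := ⟨_, rfl⟩
  have hDle : τ * D ≤ lam * h τ := by
    have h1 : Phi P Q (fun j => a j * Complex.log (a j)) =
        ((((h τ)⁻¹ * τ : ℝ)) : ℂ) • Phi P Q (fun j => l j * Complex.exp (τ * l j)) +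
        ((-((h τ)⁻¹ * lam) : ℝ) : ℂ) • At P Q l τ := by
      unfold At
      rw [Phi_smul, Phi_smul, Phi_add]
      congr 1
      funext j
      rw [hloga, haexp]
      push_cast
      ring
    rw [h1, bf_add, bf_smul, bf_smul, ← hB, hζA] at hmain
    have h2 : (starRingEnd ℂ) ζ * ((((h τ)⁻¹ * τ : ℝ) : ℂ) * B + ((-((h τ)⁻¹ * lam) : ℝ) : ℂ) * (((h τ : ℝ) : ℂ) * ζ)) =
        (((h τ)⁻¹ * τ : ℝ) : ℂ) * ((starRingEnd ℂ) ζ * B) + ((-((h τ)⁻¹ * lam * h τ) : ℝ) : ℂ) := by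
      push_cast
      linear_combination (-((h τ : ℂ)⁻¹ * lam) * (h τ : ℂ)) * hζζ
    rw [h2, Complex.add_re, Complex.re_ofReal_mul, Complex.ofReal_re, ← hD] at hmain
    have h3 : (h τ)⁻¹ * lam * h τ = lam := by field_simp
    rw [h3] at hmain
    have h4 : (h τ)⁻¹ * τ * D ≤ lam := by linarith
    have h5 := mul_le_mul_of_nonneg_left h4 hhpos.le
    have h6 : h τ * ((h τ)⁻¹ * τ * D) = τ * D := by field_simp
    rw [h6] at h5
    linarith
  -- the derivative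
  have hκ : HasDerivAt (fun σ : ℝ => ((starRingEnd ℂ) ζ * bf x₀ (At P Q l σ) x₀).re) D τ := by
    have h1 : HasDerivAt (fun σ : ℝ => bf x₀ (At P Q l σ) x₀) B τ := by
      unfold At at *
      simp only [bf_Phi] at hB ⊢
      rw [hB]
      apply HasDerivAt.fun_sum
      intro j _
      have h2 : HasDerivAt (fun σ : ℝ => (σ : ℂ) * l j) (l j) τ := by
        simpa using (Complex.ofRealCLM.hasDerivAt (x := τ)).mul_const (l j)
      have h3 := (h2.cexp).mul_const ((star x₀ ᵥ* P) j * (Q *ᵥ x₀) j)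
      refine h3.congr_deriv ?_
      ring
    have h2 := h1.const_mul ((starRingEnd ℂ) ζ)
    have h3 := Complex.reCLM.hasFDerivAt.comp_hasDerivAt τ h2
    rw [hD]
    exact h3
  have hhder : HasDerivAt h (h τ * ((g - ε) + 2 * ε * τ)) τ := by
    have h1 : HasDerivAt (fun σ : ℝ => (g - ε) * σ + ε * σ ^ 2) ((g - ε) + 2 * ε * τ) τ := by
      have h2 := ((hasDerivAt_id τ).const_mul (g - ε)).add (((hasDerivAt_id τ).pow 2).const_mul ε)
      refine h2.congr_deriv ?_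
      simp
      ring
    have h3 := h1.exp
    rw [hh]
    exact h3
  have hφ := hhder.sub hκ
  have hfin := deriv_nonpos_of hφ (by
    show h τ - ((starRingEnd ℂ) ζ * bf x₀ (At P Q l τ) x₀).re = 0
    rw [hζA]
    have : (starRingEnd ℂ) ζ * (((h τ : ℝ) : ℂ) * ζ) = ((h τ : ℝ) : ℂ) := by
      linear_combination (h τ : ℂ) * hζζ
    rw [this, Complex.ofReal_re, sub_self]) hτgt (by
    intro σ h1 h2
    show 0 ≤ h σ - ((starRingEnd ℂ) ζ * bf x₀ (At P Q l σ) x₀).re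
    have h3 := Complex.re_le_norm ((starRingEnd ℂ) ζ * bf x₀ (At P Q l σ) x₀)
    rw [norm_mul, RCLike.norm_conj, hnorma, one_mul] at h3
    have h4 := hlt σ h1 h2 x₀ hx₀'
    linarith)
  have h7 : τ * (h τ * ((g - ε) + 2 * ε * τ)) ≤ τ * D := mul_le_mul_of_nonneg_left (by linarith) hτ0.le
  have h8 : τ * (h τ * ((g - ε) + 2 * ε * τ)) ≤ lam * h τ := h7.trans hDle
  rw [hlam] at h8
  have h9 : 0 < ε * τ ^ 2 * h τ := by positivity
  nlinarith

end Q99.FP
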