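import Mathlib

/-!
# Numerical range, numerical radius, accretive matrices and their fractional powers
-/

set_option autoImplicit false
open Matrix
open scoped Real

namespace Q99.FP

variable {n : ℕ}

/-- The numerical range: all `⟨A x, x⟩` with `x` a unit vector of `ℂⁿ`. -/
def numRange (A : Matrix (Fin n) (Fin n) ℂ) : Set ℂ :=
  {z | ∃ x : Fin n → ℂ, star x ⬝ᵥ x = 1 ∧ z = star x ⬝ᵥ (A *ᵥ x)}

/-- The numerical radius: the supremum of `|z|` over the numerical range. -/
noncomputable def numRadius (A : Matrix (Fin n) (Fin n) ℂ) : ℝ :=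
  sSup {r : ℝ | ∃ z ∈ numRange A, r = ‖z‖}

/-- `A` is accretive: the numerical range lies in the open right half plane. -/
def Accretive (A : Matrix (Fin n) (Fin n) ℂ) : Prop := ∀ z ∈ numRange A, 0 < z.re

/-- The fractional power of an accretive matrix,
`A ^ t = (sin (tπ) / π) ∫_0^∞ s ^ (t - 1) A (s I + A)⁻¹ ds`, computed entry by entry. -/
noncomputable def fracPow (A : Matrix (Fin n) (Fin n) ℂ) (t : ℝ) : Matrix (Fin n) (Fin n) ℂ :=
  Matrix.of fun i j => ((Real.sin (t * π) / π : ℝ) : ℂ) *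
    ∫ s in Set.Ioi (0 : ℝ), ((s ^ (t - 1) : ℝ) : ℂ) * (A * ((s : ℂ) • (1 : Matrix (Fin n) (Fin n) ℂ) + A)⁻¹) i j

end Q99.FP
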