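import Pool.Agent.Q99.FP.Mat

/-!
# Perturbation to a diagonalizable matrix
-/

set_option autoImplicit false
open Filter Topology Set Matrix Polynomial

namespace Q99.FP

variable {n : ℕ}

/-- a matrix whose characteristic polynomial is separable is diagonalizable -/
theorem diag_of_separable {B : Matrix (Fin n) (Fin n) ℂ} (hB : B.charpoly.Separable) :
    ∃ (P Q : Matrix (Fin n) (Fin n) ℂ) (a : Fin n → ℂ), Q * P = 1 ∧ P * Q = 1 ∧ B = Phi P Q a := by
  have hcard : B.charpoly.roots.toFinset.card = n := by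
    rw [Multiset.toFinset_card_of_nodup (nodup_roots hB), IsAlgClosed.card_roots_eq_natDegree,
      Matrix.charpoly_natDegree_eq_dim, Fintype.card_fin]
  obtain ⟨e⟩ : Nonempty (Fin n ≃ B.charpoly.roots.toFinset) := ⟨(Finset.equivFinOfCardEq hcard).symm⟩
  obtain ⟨a, ha⟩ : ∃ a : Fin n → ℂ, a = fun j => (e j : ℂ) := ⟨_, rfl⟩
  have hinj : Function.Injective a := by
    rw [ha]
    exact Subtype.coe_injective.comp e.injective
  have hroot : ∀ j, B.charpoly.IsRoot (a j) := by
    intro j
    have h1 : (e j : ℂ) ∈ B.charpoly.roots.toFinset := (e j).2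
    rw [Multiset.mem_toFinset] at h1
    rw [ha]
    exact isRoot_of_mem_roots h1
  have heig : ∀ j, ∃ v : Fin n → ℂ, Module.End.HasEigenvector (Matrix.toLin' B) (a j) v := by
    intro j
    have h1 : Module.End.HasEigenvalue (Matrix.toLin' B) (a j) := by
      rw [Module.End.hasEigenvalue_iff_isRoot_charpoly, Matrix.charpoly_toLin']
      exact hroot j
    exact h1.exists_hasEigenvector
  choose v hv using heig
  have hli := Module.End.eigenvectors_linearIndependent' (Matrix.toLin' B) a hinj v hv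
  obtain ⟨P, hP⟩ : ∃ P : Matrix (Fin n) (Fin n) ℂ, P = Matrix.of (fun i j => v j i) := ⟨_, rfl⟩
  have hcol : P.col = v := by
    rw [hP]
    rfl
  have hunit : IsUnit P := by
    rw [← Matrix.linearIndependent_cols_iff_isUnit, hcol]
    exact hli
  have hdet : IsUnit P.det := (Matrix.isUnit_iff_isUnit_det P).1 hunit
  have h1 : B * P = P * diagonal a := by
    ext i j
    rw [Matrix.mul_diagonal, Matrix.mul_apply]
    have h2 : B *ᵥ v j = a j • v j := by
      have := (hv j).apply_eq_smul
      rwa [Matrix.toLin'_apply] at this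
    have h3 := congrFun h2 i
    rw [Pi.smul_apply, smul_eq_mul] at h3
    rw [hP]
    show ∑ k, B i k * v j k = v j i * a j
    rw [mul_comm, ← h3]
    rfl
  refine ⟨P, P⁻¹, a, Matrix.nonsing_inv_mul P hdet, Matrix.mul_nonsing_inv P hdet, ?_⟩
  unfold Phi
  rw [← h1, Matrix.mul_assoc, Matrix.mul_nonsing_inv P hdet, Matrix.mul_one]

/-- small perturbations in the direction of a diagonal matrix with distinct entries are diagonalizable -/
theorem exists_diag (A : Matrix (Fin n) (Fin n) ℂ) {δ : ℝ} (hδ : 0 < δ) :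
    ∃ u : ℝ, 0 < u ∧ u < δ ∧ ∃ (P Q : Matrix (Fin n) (Fin n) ℂ) (a : Fin n → ℂ), Q * P = 1 ∧ P * Q = 1 ∧
      A + (u : ℂ) • diagonal (fun j : Fin n => ((j : ℕ) : ℂ)) = Phi P Q a := by
  rcases Nat.eq_zero_or_pos n with hn | hn
  · subst hn
    refine ⟨δ / 2, by positivity, by linarith, 1, 1, fun _ => 0, by simp, by simp, ?_⟩
    exact Subsingleton.elim _ _
  obtain ⟨D, hD⟩ : ∃ D : Matrix (Fin n) (Fin n) ℂ, D = diagonal (fun j : Fin n => ((j : ℕ) : ℂ)) := ⟨_, rfl⟩
  rw [← hD]
  obtain ⟨M, hM⟩ : ∃ M : Matrix (Fin n) (Fin n) ℂ[X], M = (X : ℂ[X]) • A.map C + D.map C := ⟨_, rfl⟩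
  obtain ⟨r, hr⟩ : ∃ r : ℂ[X], r = resultant M.charpoly (derivative M.charpoly) n (n - 1) := ⟨_, rfl⟩
  have hmap : ∀ s : ℂ, M.map (evalRingHom s) = s • A + D := by
    intro s
    rw [hM]
    ext i j
    simp
    ring
  have heval : ∀ s : ℂ, r.eval s = resultant (s • A + D).charpoly (derivative (s • A + D).charpoly) := by
    intro s
    have h1 : (s • A + D).charpoly = M.charpoly.map (evalRingHom s) := by
      rw [← hmap, Matrix.charpoly_map]
    have hdeg : (s • A + D).charpoly.natDegree = n := by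
      rw [Matrix.charpoly_natDegree_eq_dim, Fintype.card_fin]
    have hdeg' : (derivative (s • A + D).charpoly).natDegree = n - 1 := by
      apply natDegree_eq_of_degree_eq_some
      rw [degree_derivative (by rw [hdeg]; omega), hdeg]
    rw [hdeg', hdeg, h1, Polynomial.derivative_map, resultant_map_map, hr]
    rfl
  have hr0 : r ≠ 0 := by
    intro h0
    have h1 := heval 0
    rw [h0, eval_zero, zero_smul, zero_add] at h1
    have h2 : D.charpoly.Separable := by
      rw [hD, Matrix.charpoly_diagonal, separable_prod_X_sub_C_iff]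
      intro i j hij
      have : ((i : ℕ) : ℂ) = ((j : ℕ) : ℂ) := hij
      exact Fin.ext (by exact_mod_cast this)
    have h3 := resultant_eq_zero_iff.1 h1.symm
    exact h3.2 h2
  obtain ⟨s, hs1, hs2⟩ : ∃ s : ℝ, 1 / δ < s ∧ r.eval (s : ℂ) ≠ 0 := by
    have hfin : {s : ℝ | r.eval (s : ℂ) = 0}.Finite := by
      have h1 : (r.rootSet ℂ).Finite := Polynomial.rootSet_finite r ℂ
      have h2 := h1.preimage (f := fun s : ℝ => (s : ℂ)) (Complex.ofReal_injective.injOn)
      apply h2.subset
      intro s hs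
      rw [mem_preimage, mem_rootSet]
      refine ⟨hr0, ?_⟩
      simpa using hs
    have hinf : (Ioi (1 / δ)).Infinite := Ioi_infinite _
    obtain ⟨s, hs, hs'⟩ := hinf.exists_notMem_finite hfin
    exact ⟨s, hs, hs'⟩
  have hs0 : 0 < s := lt_trans (by positivity) hs1
  have hsep : (((s : ℝ) : ℂ) • A + D).charpoly.Separable := by
    rw [heval] at hs2
    by_contra hc
    apply hs2
    rw [resultant_eq_zero_iff]
    exact ⟨Or.inl (Matrix.charpoly_monic _).ne_zero, hc⟩
  obtain ⟨P, Q, a, hQP, hPQ, hB⟩ := diag_of_separable hsep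
  refine ⟨1 / s, by positivity, ?_, P, Q, fun j => ((1 / s : ℝ) : ℂ) * a j, hQP, hPQ, ?_⟩
  · rw [div_lt_iff₀ hδ] at hs1
    rw [div_lt_iff₀ hs0]
    linarith
  · rw [← Phi_smul, ← hB, smul_add, smul_smul, ← Complex.ofReal_mul]
    have : 1 / s * s = 1 := by field_simp
    rw [this, Complex.ofReal_one, one_smul]

end Q99.FP
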