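import Mathlib

/-!
# The integral formula for the fractional powers of a complex number with positive real part
-/

set_option autoImplicit false
open Filter Topology MeasureTheory Set
open scoped Real

namespace Q99.FP

/-- the integrand -/
noncomputable def ker (t : ℝ) (a : ℂ) (s : ℝ) : ℂ := ((s ^ (t - 1) : ℝ) : ℂ) * (1 / ((s : ℂ) + a))

theorem integrable_real {t δ : ℝ} (h0 : 0 < t) (h1 : t < 1) (hδ : 0 < δ) :
    IntegrableOn (fun s : ℝ => s ^ (t - 1) / (s + δ)) (Ioi 0) := by
  have hmeas : AEStronglyMeasurable (fun s : ℝ => s ^ (t - 1) / (s + δ)) volume :=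
    ((measurable_id.pow_const _).div (measurable_id.add_const _)).aestronglyMeasurable
  have hu : Ioi (0 : ℝ) = Ioc 0 1 ∪ Ioi 1 := (Ioc_union_Ioi_eq_Ioi zero_le_one).symm
  rw [hu]
  apply IntegrableOn.union
  · have h2 : IntegrableOn (fun s : ℝ => s ^ (t - 1) / δ) (Ioc 0 1) := by
      apply Integrable.div_const
      rw [← IntegrableOn, ← intervalIntegrable_iff_integrableOn_Ioc_of_le zero_le_one]
      exact intervalIntegral.intervalIntegrable_rpow' (by linarith)
    apply Integrable.mono' h2 hmeas.restrict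
    rw [ae_restrict_iff' measurableSet_Ioc]
    filter_upwards with s hs
    have hs0 : 0 < s := hs.1
    have hp : 0 < s ^ (t - 1) := Real.rpow_pos_of_pos hs0 _
    rw [Real.norm_eq_abs, abs_of_pos (by positivity)]
    apply div_le_div_of_nonneg_left hp.le hδ
    linarith
  · have h2 : IntegrableOn (fun s : ℝ => s ^ (t - 2)) (Ioi 1) := integrableOn_Ioi_rpow_of_lt (by linarith) one_pos
    apply Integrable.mono' h2 hmeas.restrict
    rw [ae_restrict_iff' measurableSet_Ioi]
    filter_upwards with s hs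
    have hs0 : 0 < s := lt_trans one_pos hs
    have hp : 0 < s ^ (t - 1) := Real.rpow_pos_of_pos hs0 _
    rw [Real.norm_eq_abs, abs_of_pos (by positivity)]
    have e : s ^ (t - 2) = s ^ (t - 1) / s := by
      rw [div_eq_mul_inv, ← Real.rpow_neg_one s, ← Real.rpow_add hs0]
      congr 1
      ring
    rw [e]
    apply div_le_div_of_nonneg_left hp.le hs0
    linarith

theorem add_ne {a : ℂ} (ha : 0 < a.re) {s : ℝ} (hs : 0 ≤ s) : (s : ℂ) + a ≠ 0 := by
  intro h
  have : ((s : ℂ) + a).re = 0 := by rw [h]; rfl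
  rw [Complex.add_re, Complex.ofReal_re] at this
  linarith

theorem norm_add_ge {a : ℂ} {s : ℝ} : s + a.re ≤ ‖(s : ℂ) + a‖ := by
  have h := Complex.re_le_norm ((s : ℂ) + a)
  rwa [Complex.add_re, Complex.ofReal_re] at h

theorem ker_meas (t : ℝ) (a : ℂ) : AEStronglyMeasurable (ker t a) (volume.restrict (Ioi 0)) := by
  unfold ker
  apply Measurable.aestronglyMeasurable
  fun_prop

theorem ker_integrable {t : ℝ} (h0 : 0 < t) (h1 : t < 1) {a : ℂ} (ha : 0 < a.re) :
    IntegrableOn (ker t a) (Ioi 0) := by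
  apply Integrable.mono' (integrable_real h0 h1 ha) (ker_meas t a)
  rw [ae_restrict_iff' measurableSet_Ioi]
  filter_upwards with s hs
  have hs0 : 0 < s := hs
  have hp : 0 < s ^ (t - 1) := Real.rpow_pos_of_pos hs0 _
  unfold ker
  rw [norm_mul, Complex.norm_real, Real.norm_eq_abs, abs_of_pos hp, norm_div, norm_one, mul_one_div]
  exact div_le_div_of_nonneg_left hp.le (by linarith) norm_add_ge

/-- the value at `1` -/
theorem ker_one {t : ℝ} (h0 : 0 < t) (h1 : t < 1) : ∫ s in Ioi (0 : ℝ), ker t 1 s = (π : ℂ) / Complex.sin (π * t) := by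
  have hbeta : Complex.betaIntegral (t : ℂ) (1 - t : ℂ) = (π : ℂ) / Complex.sin (π * t) := by
    have h2 := Complex.Gamma_mul_Gamma_eq_betaIntegral (s := (t : ℂ)) (t := (1 - t : ℂ)) (by simpa using h0)
      (by simp; linarith)
    rw [Complex.Gamma_mul_Gamma_one_sub] at h2
    have h3 : (t : ℂ) + (1 - t) = 1 := by ring
    rw [h3, Complex.Gamma_one, one_mul] at h2
    exact h2.symm
  rw [← hbeta]
  unfold Complex.betaIntegral
  rw [intervalIntegral.integral_of_le zero_le_one, integral_Ioc_eq_integral_Ioo]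
  have himg : (fun x : ℝ => x / (1 - x)) '' Ioo 0 1 = Ioi 0 := by
    ext y
    constructor
    · rintro ⟨x, ⟨hx0, hx1⟩, rfl⟩
      exact div_pos hx0 (by linarith)
    · intro hy
      have hy0 : 0 < y := hy
      have h2 : 0 < 1 + y := by linarith
      refine ⟨y / (1 + y), ⟨by positivity, ?_⟩, ?_⟩
      · rw [div_lt_one h2]
        linarith
      · show y / (1 + y) / (1 - y / (1 + y)) = y
        field_simp
        ring
  have hder : ∀ x ∈ Ioo (0 : ℝ) 1, HasDerivWithinAt (fun x : ℝ => x / (1 - x)) (1 / (1 - x) ^ 2) (Ioo 0 1) x := by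
    intro x hx
    have h2 : (1 : ℝ) - x ≠ 0 := by
      have := hx.2
      linarith
    have h3 := (hasDerivAt_id x).div ((hasDerivAt_id x).const_sub 1) h2
    refine (h3.congr_deriv ?_).hasDerivWithinAt
    simp only [id]
    congr 1
    ring
  have hinj : InjOn (fun x : ℝ => x / (1 - x)) (Ioo 0 1) := by
    intro x hx y hy hxy
    have h2 : (1 : ℝ) - x ≠ 0 := by
      have := hx.2
      linarith
    have h3 : (1 : ℝ) - y ≠ 0 := by
      have := hy.2
      linarith
    have h4 : x / (1 - x) = y / (1 - y) := hxy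
    rw [div_eq_div_iff h2 h3] at h4
    linarith
  rw [← himg, integral_image_eq_integral_abs_deriv_smul measurableSet_Ioo hder hinj]
  apply setIntegral_congr_fun measurableSet_Ioo
  intro x hx
  have hx0 : 0 < x := hx.1
  have hx1 : 0 < 1 - x := by
    have := hx.2
    linarith
  show |1 / (1 - x) ^ 2| • ((((x / (1 - x)) ^ (t - 1) : ℝ) : ℂ) * (1 / (((x / (1 - x) : ℝ) : ℂ) + 1))) =
    (x : ℂ) ^ ((t : ℂ) - 1) * (1 - (x : ℂ)) ^ (1 - (t : ℂ) - 1)
  rw [abs_of_pos (by positivity)]
  have e1 : ((x : ℂ)) ^ ((t : ℂ) - 1) = ((x ^ (t - 1) : ℝ) : ℂ) := by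
    rw [Complex.ofReal_cpow hx0.le]
    push_cast
    rfl
  have e2 : (1 - (x : ℂ)) ^ (1 - (t : ℂ) - 1) = (((1 - x) ^ (-t) : ℝ) : ℂ) := by
    rw [Complex.ofReal_cpow hx1.le]
    push_cast
    congr 1
    ring
  rw [e1, e2, Real.div_rpow hx0.le hx1.le]
  have e3 : (1 - x) ^ (-t) = ((1 - x) ^ (t - 1))⁻¹ * (1 - x)⁻¹ := by
    rw [← Real.rpow_neg hx1.le, ← Real.rpow_neg_one (1 - x), ← Real.rpow_add hx1]
    congr 1
    ring
  rw [e3]
  have h5 : ((1 - x) ^ (t - 1) : ℝ) ≠ 0 := (Real.rpow_pos_of_pos hx1 _).ne'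
  have h6 : (x / (1 - x) : ℝ) + 1 = 1 / (1 - x) := by
    field_simp
    ring
  have h7 : (((x / (1 - x) : ℝ) : ℂ) + 1) = ((1 / (1 - x) : ℝ) : ℂ) := by
    rw [← h6]
    push_cast
    ring
  rw [h7, Complex.real_smul, ← Complex.ofReal_mul, ← Complex.ofReal_one, ← Complex.ofReal_div, ← Complex.ofReal_mul,
    ← Complex.ofReal_mul]
  congr 1
  field_simp

/-- the value at a positive real -/
theorem ker_pos {t : ℝ} (h0 : 0 < t) (h1 : t < 1) {b : ℝ} (hb : 0 < b) :
    ∫ s in Ioi (0 : ℝ), ker t b s = (π : ℂ) / Complex.sin (π * t) * (b : ℂ) ^ ((t : ℂ) - 1) := by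
  have h2 := integral_comp_mul_left_Ioi' (ker t b) 0 hb
  rw [mul_zero] at h2
  rw [← h2]
  have h3 : ∀ u ∈ Ioi (0 : ℝ), ker t b (b * u) = (((b ^ (t - 2) : ℝ)) : ℂ) * ker t 1 u := by
    intro u hu
    have hu0 : 0 < u := hu
    unfold ker
    rw [Real.mul_rpow hb.le hu0.le]
    have e1 : b ^ (t - 2) = b ^ (t - 1) * b⁻¹ := by
      rw [← Real.rpow_neg_one b, ← Real.rpow_add hb]
      congr 1
      ring
    rw [e1]
    have hbne : (b : ℂ) ≠ 0 := by exact_mod_cast hb.ne'
    have hune : (u : ℂ) + 1 ≠ 0 := by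
      have : ((u + 1 : ℝ) : ℂ) ≠ 0 := by exact_mod_cast (by linarith : u + 1 ≠ 0)
      push_cast at this
      exact this
    have hbu : ((b * u : ℝ) : ℂ) + (b : ℂ) = b * ((u : ℂ) + 1) := by
      push_cast
      ring
    rw [hbu]
    push_cast
    field_simp
  rw [setIntegral_congr_fun measurableSet_Ioi h3, integral_const_mul, ker_one h0 h1, Complex.real_smul,
    ← mul_assoc, ← Complex.ofReal_mul]
  have e2 : b * b ^ (t - 2) = b ^ (t - 1) := by
    nth_rewrite 1 [← Real.rpow_one b]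
    rw [← Real.rpow_add hb]
    congr 1
    ring
  rw [e2, Complex.ofReal_cpow hb.le]
  push_cast
  ring

theorem ker_hasDerivAt {t : ℝ} (h0 : 0 < t) (h1 : t < 1) {a : ℂ} (ha : 0 < a.re) :
    DifferentiableAt ℂ (fun a => ∫ s in Ioi (0 : ℝ), ker t a s) a := by
  obtain ⟨δ, hδ⟩ : ∃ δ, δ = a.re / 2 := ⟨_, rfl⟩
  have hδ0 : 0 < δ := by rw [hδ]; positivity
  have hball : ∀ z ∈ Metric.ball a δ, δ < z.re := by
    intro z hz
    rw [Metric.mem_ball, dist_eq_norm] at hz
    have h2 := Complex.abs_re_le_norm (z - a)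
    rw [Complex.sub_re] at h2
    have h3 := (abs_le.1 (h2.trans hz.le)).1
    rcases (abs_lt.1 (lt_of_le_of_lt h2 hz)) with ⟨h4, _⟩
    linarith
  have hb2 : Integrable (fun s : ℝ => s ^ (t - 1) / (s + δ) * (1 / δ)) (volume.restrict (Ioi 0)) :=
    (integrable_real h0 h1 hδ0).mul_const _
  have hmain := hasDerivAt_integral_of_dominated_loc_of_deriv_le (μ := volume.restrict (Ioi (0 : ℝ)))
    (F := fun a s => ker t a s) (x₀ := a) (s := Metric.ball a δ) (Metric.ball_mem_nhds a hδ0)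
    (bound := fun s : ℝ => s ^ (t - 1) / (s + δ) * (1 / δ))
    (Eventually.of_forall fun z => ker_meas t z) (ker_integrable h0 h1 ha)
    (F' := fun z s => ((s ^ (t - 1) : ℝ) : ℂ) * (-1 / ((s : ℂ) + z) ^ 2))
    (by
      apply Measurable.aestronglyMeasurable
      fun_prop)
    (by
      rw [ae_restrict_iff' measurableSet_Ioi]
      filter_upwards with s hs z hz
      have hs0 : 0 < s := hs
      have hp : 0 < s ^ (t - 1) := Real.rpow_pos_of_pos hs0 _
      have hz1 := hball z hz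
      have hn : s + δ ≤ ‖(s : ℂ) + z‖ := by
        have := norm_add_ge (a := z) (s := s)
        linarith
      have hn2 : δ ≤ ‖(s : ℂ) + z‖ := by linarith
      rw [norm_mul, Complex.norm_real, Real.norm_eq_abs, abs_of_pos hp, norm_div, norm_neg, norm_one, norm_pow,
        div_mul_eq_mul_div, mul_one_div, mul_one_div, div_div]
      apply div_le_div_of_nonneg_left hp.le (by positivity)
      calc δ * (s + δ) ≤ ‖(s : ℂ) + z‖ * ‖(s : ℂ) + z‖ := mul_le_mul hn2 hn (by positivity) (by positivity)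
        _ = ‖(s : ℂ) + z‖ ^ 2 := by ring)
    hb2
    (by
      rw [ae_restrict_iff' measurableSet_Ioi]
      filter_upwards with s hs z hz
      have hs0 : 0 < s := hs
      have hz1 := hball z hz
      have hne := add_ne (a := z) (by linarith) hs0.le
      unfold ker
      have h3 : HasDerivAt (fun z : ℂ => (s : ℂ) + z) 1 z := (hasDerivAt_id z).const_add _
      have h4 := (h3.inv hne).const_mul (((s ^ (t - 1) : ℝ)) : ℂ)
      simp only [one_div]
      exact h4)
  exact hmain.2.differentiableAt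

/-- the integral formula for `a ^ (t - 1)` -/
theorem ker_eq {t : ℝ} (h0 : 0 < t) (h1 : t < 1) {a : ℂ} (ha : 0 < a.re) :
    ∫ s in Ioi (0 : ℝ), ker t a s = (π : ℂ) / Complex.sin (π * t) * a ^ ((t : ℂ) - 1) := by
  have hopen : IsOpen {z : ℂ | 0 < z.re} := isOpen_lt continuous_const Complex.continuous_re
  have hconv : Convex ℝ {z : ℂ | 0 < z.re} := convex_halfSpace_re_gt 0
  have hf : AnalyticOnNhd ℂ (fun a => ∫ s in Ioi (0 : ℝ), ker t a s) {z : ℂ | 0 < z.re} :=
    DifferentiableOn.analyticOnNhd (fun z hz => (ker_hasDerivAt h0 h1 hz).differentiableWithinAt) hopen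
  have hg : AnalyticOnNhd ℂ (fun a : ℂ => (π : ℂ) / Complex.sin (π * t) * a ^ ((t : ℂ) - 1)) {z : ℂ | 0 < z.re} := by
    apply DifferentiableOn.analyticOnNhd _ hopen
    intro z hz
    apply DifferentiableAt.differentiableWithinAt
    apply DifferentiableAt.const_mul
    exact (differentiableAt_id).cpow_const (Or.inl hz)
  have hfreq : ∃ᶠ z in 𝓝[≠] (1 : ℂ), (∫ s in Ioi (0 : ℝ), ker t z s) = (π : ℂ) / Complex.sin (π * t) * z ^ ((t : ℂ) - 1) := by
    have hseq : Tendsto (fun n : ℕ => ((1 + 1 / ((n : ℝ) + 1) : ℝ) : ℂ)) atTop (𝓝[≠] (1 : ℂ)) := by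
      apply tendsto_nhdsWithin_of_tendsto_nhds_of_eventually_within
      · have h2 : Tendsto (fun n : ℕ => (1 + 1 / ((n : ℝ) + 1) : ℝ)) atTop (𝓝 (1 + 0)) :=
          tendsto_one_div_add_atTop_nhds_zero_nat.const_add 1
        rw [add_zero] at h2
        exact (Complex.continuous_ofReal.tendsto 1).comp h2
      · apply Eventually.of_forall
        intro n
        show ((1 + 1 / ((n : ℝ) + 1) : ℝ) : ℂ) ≠ 1
        rw [Ne, Complex.ofReal_eq_one]
        have : 0 < 1 / ((n : ℝ) + 1) := by positivity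
        linarith
    apply hseq.frequently
    apply Frequently.of_forall
    intro n
    exact ker_pos h0 h1 (by positivity)
  exact hf.eqOn_of_preconnected_of_frequently_eq hg hconv.isPreconnected (show (0 : ℝ) < (1 : ℂ).re by simp) hfreq ha

/-- the fractional power through the integral -/
theorem pow_eq {t : ℝ} (h0 : 0 < t) (h1 : t < 1) {a : ℂ} (ha : 0 < a.re) :
    ((Real.sin (t * π) / π : ℝ) : ℂ) * ∫ s in Ioi (0 : ℝ), ((s ^ (t - 1) : ℝ) : ℂ) * (a / ((s : ℂ) + a)) =
      Complex.exp (t * Complex.log a) := by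
  have hne : a ≠ 0 := by
    rintro rfl
    simp at ha
  have e1 : (fun s : ℝ => ((s ^ (t - 1) : ℝ) : ℂ) * (a / ((s : ℂ) + a))) = fun s => a * ker t a s := by
    funext s
    unfold ker
    ring
  rw [e1, integral_const_mul, ker_eq h0 h1 ha]
  have hsin : Real.sin (t * π) ≠ 0 := (Real.sin_pos_of_pos_of_lt_pi (by positivity) (by nlinarith [Real.pi_pos])).ne'
  have hsin' : Complex.sin (π * t) ≠ 0 := by
    rw [← Complex.ofReal_mul, ← Complex.ofReal_sin, mul_comm π t]
    exact_mod_cast hsin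
  have hpi : (π : ℂ) ≠ 0 := by exact_mod_cast Real.pi_ne_zero
  have e2 : ((Real.sin (t * π) / π : ℝ) : ℂ) = Complex.sin (π * t) / π := by
    push_cast
    rw [mul_comm (t : ℂ)]
  rw [e2]
  have e3 : a * a ^ ((t : ℂ) - 1) = Complex.exp (t * Complex.log a) := by
    rw [Complex.cpow_sub _ _ hne, Complex.cpow_one, mul_div_cancel₀ _ hne, Complex.cpow_def_of_ne_zero hne]
    congr 1
    ring
  rw [← e3]
  field_simp

end Q99.FP
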