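import Pool.Agent.Q99.FP.Inf
import Pool.Agent.Q99.FP.Pow

/-!
# From the infinitesimal inequality to the inequality of the numerical radii
-/

set_option autoImplicit false
open Filter Topology MeasureTheory Set Matrix
open scoped Real

namespace Q99.FP

variable {n : ℕ}

/-! ### complex conjugation -/

/-- entrywise conjugate -/
noncomputable def cj (x : Fin n → ℂ) : Fin n → ℂ := fun j => (starRingEnd ℂ) (x j)
/-- entrywise conjugate -/
noncomputable def cjm (M : Matrix (Fin n) (Fin n) ℂ) : Matrix (Fin n) (Fin n) ℂ := M.map (starRingEnd ℂ)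

theorem cj_cj (x : Fin n → ℂ) : cj (cj x) = x := by
  funext j
  exact Complex.conj_conj _

theorem cjm_mul (M N : Matrix (Fin n) (Fin n) ℂ) : cjm (M * N) = cjm M * cjm N := Matrix.map_mul

theorem cjm_one : cjm (1 : Matrix (Fin n) (Fin n) ℂ) = 1 := by
  unfold cjm
  rw [Matrix.map_one _ (map_zero _) (map_one _)]

theorem cjm_Phi (P Q : Matrix (Fin n) (Fin n) ℂ) (g : Fin n → ℂ) : cjm (Phi P Q g) = Phi (cjm P) (cjm Q) (cj g) := by
  unfold Phi
  rw [cjm_mul, cjm_mul]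
  congr 2
  unfold cjm cj
  rw [Matrix.diagonal_map (map_zero _)]

theorem bf_cj (y x : Fin n → ℂ) (M : Matrix (Fin n) (Fin n) ℂ) : bf (cj y) (cjm M) (cj x) = (starRingEnd ℂ) (bf y M x) := by
  unfold bf cj cjm dotProduct Matrix.mulVec dotProduct
  rw [map_sum]
  apply Finset.sum_congr rfl
  intro j _
  rw [map_mul, map_sum]
  congr 1
  apply Finset.sum_congr rfl
  intro i _
  rw [map_mul]
  rfl

theorem nq_cj (x : Fin n → ℂ) : nq (cj x) = nq x := by
  unfold nq cj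
  apply Finset.sum_congr rfl
  intro j _
  rw [RCLike.norm_conj]

/-! ### the eigenvalues -/

theorem nq_pos {x : Fin n → ℂ} (hx : x ≠ 0) : 0 < nq x := by
  obtain ⟨j, hj⟩ := Function.ne_iff.1 hx
  unfold nq
  apply Finset.sum_pos' (fun _ _ => sq_nonneg _) ⟨j, Finset.mem_univ j, _⟩
  have := norm_pos_iff.2 hj
  positivity

theorem eig_form {P Q : Matrix (Fin n) (Fin n) ℂ} (hQP : Q * P = 1) (a : Fin n → ℂ) (j : Fin n) :
    ∃ x : Fin n → ℂ, x ≠ 0 ∧ bf x (Phi P Q a) x = a j * nq x := by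
  refine ⟨P *ᵥ Pi.single j 1, ?_, ?_⟩
  · intro h
    have h1 : Q *ᵥ (P *ᵥ Pi.single j 1) = 0 := by rw [h, Matrix.mulVec_zero]
    rw [Matrix.mulVec_mulVec, hQP, Matrix.one_mulVec] at h1
    have h2 := congrFun h1 j
    rw [Pi.single_eq_same] at h2
    exact one_ne_zero h2
  · have h1 : Phi P Q a *ᵥ (P *ᵥ Pi.single j 1) = a j • (P *ᵥ Pi.single j 1) := by
      unfold Phi
      rw [Matrix.mulVec_mulVec, Matrix.mul_assoc, hQP, Matrix.mul_one, ← Matrix.mulVec_mulVec]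
      have h2 : diagonal a *ᵥ Pi.single j 1 = a j • (Pi.single j 1 : Fin n → ℂ) := by
        funext i
        rw [Matrix.mulVec_diagonal, Pi.smul_apply, smul_eq_mul]
        by_cases hij : i = j
        · rw [hij]
        · rw [Pi.single_eq_of_ne hij, mul_zero, mul_zero]
      rw [h2, Matrix.mulVec_smul]
    unfold bf
    rw [h1, dotProduct_smul, star_dot_self, smul_eq_mul]
    rfl

/-- the infinitesimal inequality, second form -/
theorem inf_ineq2_aux {P Q : Matrix (Fin n) (Fin n) ℂ} (hQP : Q * P = 1) (hPQ : P * Q = 1) {a : Fin n → ℂ}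
    (hacc : ∀ y, 0 ≤ (bf y (Phi P Q a) y).re) (hrad : ∀ y, ‖bf y (Phi P Q a) y‖ ≤ nq y)
    (ha : ∀ j, 0 < (a j).re) {x : Fin n → ℂ} (hx : nq x = 1)
    (hmax : ‖bf x (Phi P Q a) x‖ = 1) (him : 0 ≤ (bf x (Phi P Q a) x).im) :
    ((starRingEnd ℂ) (bf x (Phi P Q a) x) * bf x (Phi P Q (fun j => a j * Complex.log (a j))) x).re ≤ 0 := by
  obtain ⟨ζ, hζ⟩ : ∃ ζ, ζ = bf x (Phi P Q a) x := ⟨_, rfl⟩
  have hre : 0 ≤ ζ.re := by rw [hζ]; exact hacc x
  rw [← hζ] at hmax him ⊢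
  have hsq : ζ.re ^ 2 + ζ.im ^ 2 = 1 := by
    have := Complex.sq_norm ζ
    rw [hmax, Complex.normSq_apply] at this
    linarith
  have hre1 : ζ.re ≤ 1 := by nlinarith [sq_nonneg ζ.im]
  obtain ⟨c, hc⟩ : ∃ c, c = √((1 + ζ.re) / 2) := ⟨_, rfl⟩
  obtain ⟨s, hs⟩ : ∃ s, s = √((1 - ζ.re) / 2) := ⟨_, rfl⟩
  have hc2 : c ^ 2 = (1 + ζ.re) / 2 := by rw [hc]; exact Real.sq_sqrt (by linarith)
  have hs2 : s ^ 2 = (1 - ζ.re) / 2 := by rw [hs]; exact Real.sq_sqrt (by linarith)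
  have hs0 : 0 ≤ s := by rw [hs]; exact Real.sqrt_nonneg _
  have hc0 : 0 < c := by rw [hc]; exact Real.sqrt_pos.2 (by linarith)
  have hsc : s ≤ c := by rw [hs, hc]; exact Real.sqrt_le_sqrt (by linarith)
  have hcs : c ^ 2 + s ^ 2 = 1 := by rw [hc2, hs2]; ring
  have h2sc : 2 * s * c = ζ.im := by
    have h1 : (2 * s * c) ^ 2 = ζ.im ^ 2 := by
      have : (2 * s * c) ^ 2 = 4 * s ^ 2 * c ^ 2 := by ring
      rw [this, hs2, hc2]
      linarith
    have h2 : 0 ≤ 2 * s * c := by positivity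
    exact (pow_left_inj₀ h2 him two_ne_zero).1 h1
  have hEζ : EE c s ^ 2 = (starRingEnd ℂ) ζ := by
    rw [EE_sq_eq, h2sc]
    have : c ^ 2 - s ^ 2 = ζ.re := by rw [hc2, hs2]; ring
    rw [this]
    apply Complex.ext
    · simp
    · simp
  have hζζ : (starRingEnd ℂ) ζ * ζ = 1 := by
    rw [mul_comm, Complex.mul_conj, Complex.normSq_eq_norm_sq, hmax]
    norm_num
  have hai : ∀ j, |(a j).im| ≤ 1 := by
    intro j
    obtain ⟨u, hu, hu2⟩ := eig_form (P := P) hQP a j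
    have h1 := hrad u
    rw [hu2, norm_mul, Complex.norm_real, Real.norm_eq_abs, abs_of_pos (nq_pos hu)] at h1
    have h2 : ‖a j‖ ≤ 1 := by
      by_contra hcon
      push Not at hcon
      have := mul_lt_mul_of_pos_right hcon (nq_pos hu)
      linarith
    exact (Complex.abs_im_le_norm _).trans h2
  have hmain := inf_ineq hQP hPQ hacc hrad hcs hs0 hsc hc0 ha hai hx (by rw [hEζ, ← hζ]; exact hζζ)
  have hconjne : (starRingEnd ℂ) ζ ≠ 0 := by
    intro h0
    rw [h0, zero_mul] at hζζ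
    exact zero_ne_one hζζ
  have hlog : ∀ j, Complex.log ((starRingEnd ℂ) ζ * a j) = Complex.log ((starRingEnd ℂ) ζ) + Complex.log (a j) := by
    intro j
    have haj : a j ≠ 0 := by
      intro h0
      have := ha j
      rw [h0] at this
      simp at this
    apply Complex.log_mul hconjne haj
    have h1 : |Complex.arg ((starRingEnd ℂ) ζ)| ≤ π / 2 := Complex.abs_arg_le_pi_div_two_iff.2 (by simpa using hre)
    have h2 : |Complex.arg (a j)| < π / 2 := Complex.abs_arg_lt_pi_div_two_iff.2 (Or.inl (ha j))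
    rw [abs_le] at h1
    rw [abs_lt] at h2
    constructor
    · linarith
    · linarith
  have h1 : Phi P Q (fun j => (EE c s ^ 2 * a j) * Complex.log (EE c s ^ 2 * a j)) =
      (starRingEnd ℂ) ζ • Phi P Q (fun j => a j * Complex.log (a j)) +
      ((starRingEnd ℂ) ζ * Complex.log ((starRingEnd ℂ) ζ)) • Phi P Q a := by
    rw [hEζ, Phi_smul, Phi_smul, Phi_add]
    congr 1
    funext j
    rw [hlog]
    ring
  rw [h1, bf_add, bf_smul, bf_smul, ← hζ, Complex.add_re] at hmain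
  have h2 : ((starRingEnd ℂ) ζ * Complex.log ((starRingEnd ℂ) ζ) * ζ).re = 0 := by
    have : (starRingEnd ℂ) ζ * Complex.log ((starRingEnd ℂ) ζ) * ζ = Complex.log ((starRingEnd ℂ) ζ) := by
      linear_combination (Complex.log ((starRingEnd ℂ) ζ)) * hζζ
    rw [this, Complex.log_re, RCLike.norm_conj, hmax, Real.log_one]
  rw [h2, add_zero] at hmain
  exact hmain

theorem inf_ineq2 {P Q : Matrix (Fin n) (Fin n) ℂ} (hQP : Q * P = 1) (hPQ : P * Q = 1) {a : Fin n → ℂ}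
    (hacc : ∀ y, 0 ≤ (bf y (Phi P Q a) y).re) (hrad : ∀ y, ‖bf y (Phi P Q a) y‖ ≤ nq y)
    (ha : ∀ j, 0 < (a j).re) {x : Fin n → ℂ} (hx : nq x = 1)
    (hmax : ‖bf x (Phi P Q a) x‖ = 1) :
    ((starRingEnd ℂ) (bf x (Phi P Q a) x) * bf x (Phi P Q (fun j => a j * Complex.log (a j))) x).re ≤ 0 := by
  rcases le_total 0 (bf x (Phi P Q a) x).im with him | him
  · exact inf_ineq2_aux hQP hPQ hacc hrad ha hx hmax him
  · have hb : ∀ y g, bf y (Phi (cjm P) (cjm Q) (cj g)) y = (starRingEnd ℂ) (bf (cj y) (Phi P Q g) (cj y)) := by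
      intro y g
      rw [← bf_cj, cj_cj, cjm_Phi]
    have h1 := inf_ineq2_aux (P := cjm P) (Q := cjm Q) (a := cj a) (x := cj x)
      (by rw [← cjm_mul, hQP, cjm_one]) (by rw [← cjm_mul, hPQ, cjm_one])
      (fun y => by rw [hb, Complex.conj_re]; exact hacc _)
      (fun y => by rw [hb, RCLike.norm_conj, ← nq_cj]; exact hrad _)
      (fun j => by
        show 0 < ((starRingEnd ℂ) (a j)).re
        rw [Complex.conj_re]
        exact ha j)
      (by rw [nq_cj, hx]) (by rw [hb, RCLike.norm_conj, cj_cj, hmax])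
      (by rw [hb, Complex.conj_im, cj_cj]; linarith)
    have h2 : (fun j => cj a j * Complex.log (cj a j)) = cj (fun j => a j * Complex.log (a j)) := by
      funext j
      show (starRingEnd ℂ) (a j) * Complex.log ((starRingEnd ℂ) (a j)) = (starRingEnd ℂ) (a j * Complex.log (a j))
      have h3 : Complex.arg (a j) ≠ π := by
        have := Complex.abs_arg_lt_pi_div_two_iff.2 (Or.inl (ha j))
        rw [abs_lt] at this
        have := Real.pi_pos
        linarith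
      rw [Complex.log_conj _ h3, map_mul]
    rw [h2, hb, hb, cj_cj, ← map_mul, Complex.conj_re] at h1
    exact h1

/-! ### accretivity of the powers -/

/-- the powers -/
noncomputable def At (P Q : Matrix (Fin n) (Fin n) ℂ) (l : Fin n → ℂ) (τ : ℝ) : Matrix (Fin n) (Fin n) ℂ :=
  Phi P Q (fun j => Complex.exp (τ * l j))

theorem resolvent_pos {P Q : Matrix (Fin n) (Fin n) ℂ} (hQP : Q * P = 1) (hPQ : P * Q = 1) {a : Fin n → ℂ}
    (hacc : ∀ y, 0 ≤ (bf y (Phi P Q a) y).re) (ha : ∀ j, 0 < (a j).re) {s : ℝ} (hs : 0 ≤ s) (y : Fin n → ℂ) :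
    0 ≤ (bf y (Phi P Q (fun j => a j / ((s : ℂ) + a j))) y).re := by
  have hne : ∀ j, (s : ℂ) + a j ≠ 0 := fun j => add_ne (ha j) hs
  obtain ⟨u, hu⟩ : ∃ u, u = Phi P Q (fun j => ((s : ℂ) + a j)⁻¹) *ᵥ y := ⟨_, rfl⟩
  have hMu : Phi P Q (fun j => (s : ℂ) + a j) *ᵥ u = y := by
    rw [hu, Matrix.mulVec_mulVec, Phi_mul hQP]
    have : (fun j => ((s : ℂ) + a j) * ((s : ℂ) + a j)⁻¹) = fun _ => (1 : ℂ) := by
      funext j
      exact mul_inv_cancel₀ (hne j)
    rw [this, Phi_one hPQ, Matrix.one_mulVec]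
  have h1 : Phi P Q (fun j => a j / ((s : ℂ) + a j)) *ᵥ y = Phi P Q a *ᵥ u := by
    rw [hu, Matrix.mulVec_mulVec, Phi_mul hQP]
    rfl
  have h2 : y = (s : ℂ) • u + Phi P Q a *ᵥ u := by
    rw [← hMu]
    have : Phi P Q (fun j => (s : ℂ) + a j) = (s : ℂ) • (1 : Matrix (Fin n) (Fin n) ℂ) + Phi P Q a := by
      rw [← Phi_one hPQ, Phi_smul, Phi_add]
      congr 1
      funext j
      rw [mul_one]
    rw [this, Matrix.add_mulVec, Matrix.smul_mulVec, Matrix.one_mulVec]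
  have h3 : bf y (Phi P Q (fun j => a j / ((s : ℂ) + a j))) y = s * bf u (Phi P Q a) u + nq (Phi P Q a *ᵥ u) := by
    unfold bf
    rw [h1]
    nth_rewrite 1 [h2]
    rw [star_add, add_dotProduct, star_smul, smul_dotProduct, star_dot_self, smul_eq_mul]
    congr 1
    congr 1
    exact Complex.conj_ofReal s
  rw [h3, Complex.add_re, Complex.re_ofReal_mul, Complex.ofReal_re]
  exact add_nonneg (mul_nonneg hs (hacc u)) (nq_nonneg _)

/-- the fractional powers through the integral, for forms -/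
theorem bf_pow {P Q : Matrix (Fin n) (Fin n) ℂ} {a : Fin n → ℂ}
    (ha : ∀ j, 0 < (a j).re) {t : ℝ} (h0 : 0 < t) (h1 : t < 1) (y x : Fin n → ℂ) :
    bf y (Phi P Q (fun j => Complex.exp (t * Complex.log (a j)))) x =
      ((Real.sin (t * π) / π : ℝ) : ℂ) * ∫ s in Ioi (0 : ℝ), ((s ^ (t - 1) : ℝ) : ℂ) *
        bf y (Phi P Q (fun j => a j / ((s : ℂ) + a j))) x := by
  have hint : ∀ j, IntegrableOn (fun s : ℝ => ((s ^ (t - 1) : ℝ) : ℂ) * (a j / ((s : ℂ) + a j))) (Ioi 0) := by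
    intro j
    have e1 : (fun s : ℝ => ((s ^ (t - 1) : ℝ) : ℂ) * (a j / ((s : ℂ) + a j))) = fun s => a j * ker t (a j) s := by
      funext s
      unfold ker
      ring
    rw [e1]
    exact (ker_integrable h0 h1 (ha j)).const_mul _
  have e2 : ∀ s : ℝ, ((s ^ (t - 1) : ℝ) : ℂ) * bf y (Phi P Q (fun j => a j / ((s : ℂ) + a j))) x =
      ∑ j, ((s ^ (t - 1) : ℝ) : ℂ) * (a j / ((s : ℂ) + a j)) * ((star y ᵥ* P) j * (Q *ᵥ x) j) := by
    intro s
    rw [bf_Phi, Finset.mul_sum]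
    apply Finset.sum_congr rfl
    intro j _
    ring
  simp only [e2]
  rw [integral_finsetSum _ (fun j _ => (hint j).mul_const _), bf_Phi, Finset.mul_sum]
  apply Finset.sum_congr rfl
  intro j _
  rw [integral_mul_const, ← pow_eq h0 h1 (ha j)]
  ring

/-- the powers are accretive -/
theorem pow_acc {P Q : Matrix (Fin n) (Fin n) ℂ} (hQP : Q * P = 1) (hPQ : P * Q = 1) {a : Fin n → ℂ}
    (hacc : ∀ y, 0 ≤ (bf y (Phi P Q a) y).re) (ha : ∀ j, 0 < (a j).re) {t : ℝ} (h0 : 0 < t) (h1 : t < 1)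
    (y : Fin n → ℂ) : 0 ≤ (bf y (Phi P Q (fun j => Complex.exp (t * Complex.log (a j)))) y).re := by
  rw [bf_pow ha h0 h1, Complex.re_ofReal_mul]
  apply mul_nonneg
  · apply div_nonneg _ Real.pi_pos.le
    exact (Real.sin_pos_of_pos_of_lt_pi (by positivity) (by nlinarith [Real.pi_pos])).le
  · by_cases hi : IntegrableOn (fun s : ℝ => ((s ^ (t - 1) : ℝ) : ℂ) *
        bf y (Phi P Q (fun j => a j / ((s : ℂ) + a j))) y) (Ioi 0)
    · have h2 : (∫ s in Ioi (0 : ℝ), ((s ^ (t - 1) : ℝ) : ℂ) * bf y (Phi P Q (fun j => a j / ((s : ℂ) + a j))) y).re =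
          ∫ s in Ioi (0 : ℝ), (((s ^ (t - 1) : ℝ) : ℂ) * bf y (Phi P Q (fun j => a j / ((s : ℂ) + a j))) y).re :=
        (integral_re hi).symm
      rw [h2]
      apply setIntegral_nonneg measurableSet_Ioi
      intro s hs
      have hs0 : 0 < s := hs
      rw [Complex.re_ofReal_mul]
      exact mul_nonneg (Real.rpow_nonneg hs0.le _) (resolvent_pos hQP hPQ hacc ha hs0.le y)
    · rw [integral_undef hi]
      simp

end Q99.FP
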