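import Pool.Agent.Q99.FP.Mat

/-!
# The infinitesimal inequality
-/

set_option autoImplicit false
open Filter Topology MeasureTheory Set Matrix
open scoped Real

namespace Q99.FP

variable {n : ℕ}

/-- polarization at a null vector -/
theorem null_vector {N : Matrix (Fin n) (Fin n) ℂ} (hN : ∀ y, 0 ≤ (bf y N y).re) {x : Fin n → ℂ}
    (hx : (bf x N x).re = 0) (z : Fin n → ℂ) : bf x N z + (starRingEnd ℂ) (bf z N x) = 0 := by
  obtain ⟨β, hβ⟩ : ∃ β, β = bf x N z + (starRingEnd ℂ) (bf z N x) := ⟨_, rfl⟩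
  rw [← hβ]
  obtain ⟨q, hq⟩ : ∃ q, q = (bf z N z).re := ⟨_, rfl⟩
  have hq0 : 0 ≤ q := by rw [hq]; exact hN z
  have key : ∀ e : ℂ, 0 ≤ (e * β).re + ‖e‖ ^ 2 * q := by
    intro e
    have h1 := hN (x + e • z)
    rw [bf_add_left, bf_add_right, bf_add_right, bf_smul_left, bf_smul_left, bf_smul_right, bf_smul_right,
      Complex.add_re, Complex.add_re, Complex.add_re, hx] at h1
    have h2 : ((starRingEnd ℂ) e * bf z N x).re = (e * (starRingEnd ℂ) (bf z N x)).re := by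
      rw [← Complex.conj_re, map_mul, Complex.conj_conj]
    have h3 : ((starRingEnd ℂ) e * (e * bf z N z)).re = ‖e‖ ^ 2 * q := by
      rw [← mul_assoc, mul_comm ((starRingEnd ℂ) e), Complex.mul_conj, Complex.re_ofReal_mul, Complex.normSq_eq_norm_sq, hq]
    rw [h2, h3] at h1
    rw [hβ, mul_add, Complex.add_re]
    linarith
  by_contra hne
  have hpos : 0 < ‖β‖ ^ 2 := by
    have := norm_pos_iff.2 hne
    positivity
  have h1 := key ((-(1 / (q + 1)) : ℝ) * (starRingEnd ℂ) β)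
  have h2 : (((-(1 / (q + 1)) : ℝ) : ℂ) * (starRingEnd ℂ) β * β).re = -(1 / (q + 1)) * ‖β‖ ^ 2 := by
    rw [mul_assoc, Complex.re_ofReal_mul, mul_comm ((starRingEnd ℂ) β), Complex.mul_conj, Complex.ofReal_re,
      Complex.normSq_eq_norm_sq]
  have h3 : ‖((-(1 / (q + 1)) : ℝ) : ℂ) * (starRingEnd ℂ) β‖ ^ 2 = (1 / (q + 1)) ^ 2 * ‖β‖ ^ 2 := by
    rw [norm_mul, Complex.norm_real, Real.norm_eq_abs, abs_neg, abs_of_pos (by positivity), RCLike.norm_conj, mul_pow]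
  rw [h2, h3] at h1
  have h4 : -(1 / (q + 1)) * ‖β‖ ^ 2 + (1 / (q + 1)) ^ 2 * ‖β‖ ^ 2 * q = -(‖β‖ ^ 2 * (1 / (q + 1)) ^ 2) := by
    field_simp
    ring
  rw [h4] at h1
  have : 0 < ‖β‖ ^ 2 * (1 / (q + 1)) ^ 2 := by positivity
  linarith

/-- positivity on the first segment -/
theorem pointA {P Q : Matrix (Fin n) (Fin n) ℂ} (hQP : Q * P = 1) (hPQ : P * Q = 1) {a : Fin n → ℂ}
    (hacc : ∀ y, 0 ≤ (bf y (Phi P Q a) y).re) (hrad : ∀ y, ‖bf y (Phi P Q a) y‖ ≤ nq y)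
    {c s r : ℝ} (hcs : c ^ 2 + s ^ 2 = 1) (hs : 0 ≤ s) (hsc : s ≤ c) (hr0 : 0 ≤ r)
    (hr : 2 * r * c ≤ 1) (ha : ∀ j, 0 < (a j).re) (hai : ∀ j, |(a j).im| ≤ 1) (v : Fin n → ℂ) :
    0 ≤ (bf v (Phi P Q (fun j => gA c s r (a j))) v).re := by
  obtain ⟨m, hm⟩ : ∃ m : Fin n → ℂ, m = fun j => r * EE c s + (1 - r * EE c s) * EE c s ^ 2 * a j := ⟨_, rfl⟩
  have hm0 : ∀ j, m j ≠ 0 := fun j => by
    rw [hm]
    exact Complex.slitPlane_ne_zero (slitA hcs hs hsc hr0 hr (ha j) (abs_le.1 (hai j)).2)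
  obtain ⟨u, hu⟩ : ∃ u, u = Phi P Q (fun j => (m j)⁻¹) *ᵥ v := ⟨_, rfl⟩
  have hMu : Phi P Q m *ᵥ u = v := by
    rw [hu, Matrix.mulVec_mulVec, Phi_mul hQP]
    have : (fun j => m j * (m j)⁻¹) = fun _ => (1 : ℂ) := by
      funext j
      exact mul_inv_cancel₀ (hm0 j)
    rw [this, Phi_one hPQ, Matrix.one_mulVec]
  have h1 : Phi P Q (fun j => gA c s r (a j)) = (r * EE c s ^ 2) • Phi P Q (fun j => (m j)⁻¹) := by
    rw [Phi_smul]
    congr 1
    funext j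
    unfold gA
    rw [hm, div_eq_mul_inv]
  have h2 : Phi P Q m = (r * EE c s) • (1 : Matrix (Fin n) (Fin n) ℂ) + ((1 - r * EE c s) * EE c s ^ 2) • Phi P Q a := by
    rw [← Phi_one hPQ, Phi_smul, Phi_smul, Phi_add, hm]
    congr 1
    funext j
    ring
  have h3 : bf v (Phi P Q (fun j => gA c s r (a j))) v = r * EE c s ^ 2 * (star v ⬝ᵥ u) := by
    rw [h1, bf_smul]
    unfold bf
    rw [← hu]
  have h4 : (starRingEnd ℂ) (star v ⬝ᵥ u) = r * EE c s * nq u + (1 - r * EE c s) * EE c s ^ 2 * bf u (Phi P Q a) u := by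
    rw [star_dot_comm]
    have : star u ⬝ᵥ v = bf u (Phi P Q m) u := by
      unfold bf
      rw [hMu]
    rw [this, h2, bf_add, bf_smul, bf_smul, bf_one, star_dot_self]
    rfl
  rw [h3, ← Complex.conj_re, map_mul, map_mul, map_pow, conj_EE, Complex.conj_ofReal, h4]
  have h5 := posA (r := r) (N := nq u) hcs hs hsc hr0 hr (hacc u) (hrad u)
  have h6 : (r : ℂ) * FF c s ^ 2 * (r * EE c s * nq u + (1 - r * EE c s) * EE c s ^ 2 * bf u (Phi P Q a) u) =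
      (r : ℂ) * (FF c s ^ 2 * (r * EE c s * nq u + (1 - r * EE c s) * EE c s ^ 2 * bf u (Phi P Q a) u)) := by ring
  rw [h6, Complex.re_ofReal_mul]
  exact mul_nonneg hr0 h5

/-- positivity on the second segment -/
theorem pointB {P Q : Matrix (Fin n) (Fin n) ℂ} (hQP : Q * P = 1) (hPQ : P * Q = 1) {a : Fin n → ℂ}
    (hacc : ∀ y, 0 ≤ (bf y (Phi P Q a) y).re) (hrad : ∀ y, ‖bf y (Phi P Q a) y‖ ≤ nq y)
    {c s r : ℝ} (hcs : c ^ 2 + s ^ 2 = 1) (hs : 0 ≤ s) (hsc : s ≤ c) (hc : 0 < c) (hr0 : 0 ≤ r)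
    (hr : 2 * r * c ≤ 1) (ha : ∀ j, 0 < (a j).re) (hai : ∀ j, |(a j).im| ≤ 1) (v : Fin n → ℂ) :
    0 ≤ (bf v (Phi P Q (fun j => gB c s r (a j))) v).re := by
  obtain ⟨m, hm⟩ : ∃ m : Fin n → ℂ, m = fun j => 1 - r * FF c s + r * EE c s * a j := ⟨_, rfl⟩
  have hm0 : ∀ j, m j ≠ 0 := fun j => by
    rw [hm]
    exact Complex.slitPlane_ne_zero (slitB hcs hs hsc hc hr0 hr (ha j) (abs_le.1 (hai j)).1)
  obtain ⟨u, hu⟩ : ∃ u, u = Phi P Q (fun j => (m j)⁻¹) *ᵥ v := ⟨_, rfl⟩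
  have hMu : Phi P Q m *ᵥ u = v := by
    rw [hu, Matrix.mulVec_mulVec, Phi_mul hQP]
    have : (fun j => m j * (m j)⁻¹) = fun _ => (1 : ℂ) := by
      funext j
      exact mul_inv_cancel₀ (hm0 j)
    rw [this, Phi_one hPQ, Matrix.one_mulVec]
  have h1 : Phi P Q (fun j => gB c s r (a j)) = (FF c s * (1 - r * FF c s)) • Phi P Q (fun j => (m j)⁻¹) := by
    rw [Phi_smul]
    congr 1
    funext j
    unfold gB
    rw [hm, div_eq_mul_inv]
  have h2 : Phi P Q m = (1 - r * FF c s) • (1 : Matrix (Fin n) (Fin n) ℂ) + (r * EE c s) • Phi P Q a := by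
    rw [← Phi_one hPQ, Phi_smul, Phi_smul, Phi_add, hm]
    congr 1
    funext j
    ring
  have h3 : bf v (Phi P Q (fun j => gB c s r (a j))) v = FF c s * (1 - r * FF c s) * (star v ⬝ᵥ u) := by
    rw [h1, bf_smul]
    unfold bf
    rw [← hu]
  have h4 : (starRingEnd ℂ) (star v ⬝ᵥ u) = (1 - r * FF c s) * nq u + r * EE c s * bf u (Phi P Q a) u := by
    rw [star_dot_comm]
    have : star u ⬝ᵥ v = bf u (Phi P Q m) u := by
      unfold bf
      rw [hMu]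
    rw [this, h2, bf_add, bf_smul, bf_smul, bf_one, star_dot_self]
    rfl
  rw [h3, ← Complex.conj_re, map_mul, map_mul, map_sub, map_mul, map_one, conj_FF, Complex.conj_ofReal, h4]
  exact posB (r := r) (N := nq u) hcs hs hsc hc hr0 hr (hacc u) (hrad u)

/-- the integral of the path -/
theorem Jpos {P Q : Matrix (Fin n) (Fin n) ℂ} (hQP : Q * P = 1) (hPQ : P * Q = 1) {a : Fin n → ℂ}
    (hacc : ∀ y, 0 ≤ (bf y (Phi P Q a) y).re) (hrad : ∀ y, ‖bf y (Phi P Q a) y‖ ≤ nq y)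
    {c s : ℝ} (hcs : c ^ 2 + s ^ 2 = 1) (hs : 0 ≤ s) (hsc : s ≤ c) (hc : 0 < c)
    (ha : ∀ j, 0 < (a j).re) (hai : ∀ j, |(a j).im| ≤ 1) (v : Fin n → ℂ) :
    0 ≤ (bf v (Phi P Q (fun j => JJ c s (a j))) v).re := by
  have hle : (0 : ℝ) ≤ 1 / (2 * c) := by positivity
  have gen : ∀ g : ℝ → ℂ → ℂ, (∀ j, ContinuousOn (fun r => g r (a j)) (uIcc (0 : ℝ) (1 / (2 * c)))) →
      (∀ r ∈ uIcc (0 : ℝ) (1 / (2 * c)), 0 ≤ (bf v (Phi P Q (fun j => g r (a j))) v).re) →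
      0 ≤ (bf v (Phi P Q (fun j => ∫ r in (0 : ℝ)..(1 / (2 * c)), g r (a j))) v).re := by
    intro g hg hpos
    have h1 : bf v (Phi P Q (fun j => ∫ r in (0 : ℝ)..(1 / (2 * c)), g r (a j))) v =
        ∫ r in (0 : ℝ)..(1 / (2 * c)), bf v (Phi P Q (fun j => g r (a j))) v := by
      simp only [bf_Phi]
      rw [intervalIntegral.integral_finsetSum]
      · apply Finset.sum_congr rfl
        intro j _
        rw [intervalIntegral.integral_mul_const]
      · intro j _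
        exact ((hg j).mul continuousOn_const).intervalIntegrable
    have hint : IntervalIntegrable (fun r => bf v (Phi P Q (fun j => g r (a j))) v) volume (0 : ℝ) (1 / (2 * c)) := by
      simp only [bf_Phi]
      apply ContinuousOn.intervalIntegrable
      apply continuousOn_finsetSum
      intro j _
      exact (hg j).mul continuousOn_const
    rw [h1]
    have h2 := Complex.reCLM.intervalIntegral_comp_comm hint
    have h3 : (∫ r in (0 : ℝ)..(1 / (2 * c)), bf v (Phi P Q (fun j => g r (a j))) v).re =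
        ∫ r in (0 : ℝ)..(1 / (2 * c)), (bf v (Phi P Q (fun j => g r (a j))) v).re := h2.symm
    rw [h3]
    apply intervalIntegral.integral_nonneg hle
    intro r hr
    apply hpos
    rw [uIcc_of_le hle]
    exact hr
  have hA := gen (gA c s) (fun j => contA hcs hs hsc hc (ha j) (abs_le.1 (hai j)).2) (fun r hr => by
    obtain ⟨h0, h1⟩ := mem_uIcc_aux hc hr
    exact pointA hQP hPQ hacc hrad hcs hs hsc h0 h1 ha hai v)
  have hB := gen (gB c s) (fun j => contB hcs hs hsc hc (ha j) (abs_le.1 (hai j)).1) (fun r hr => by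
    obtain ⟨h0, h1⟩ := mem_uIcc_aux hc hr
    exact pointB hQP hPQ hacc hrad hcs hs hsc hc h0 h1 ha hai v)
  have h : Phi P Q (fun j => JJ c s (a j)) = Phi P Q (fun j => ∫ r in (0 : ℝ)..(1 / (2 * c)), gA c s r (a j)) +
      Phi P Q (fun j => ∫ r in (0 : ℝ)..(1 / (2 * c)), gB c s r (a j)) := by
    rw [Phi_add]
    rfl
  rw [h, bf_add, Complex.add_re]
  exact add_nonneg hA hB

/-- the infinitesimal inequality -/
theorem inf_ineq {P Q : Matrix (Fin n) (Fin n) ℂ} (hQP : Q * P = 1) (hPQ : P * Q = 1) {a : Fin n → ℂ}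
    (hacc : ∀ y, 0 ≤ (bf y (Phi P Q a) y).re) (hrad : ∀ y, ‖bf y (Phi P Q a) y‖ ≤ nq y)
    {c s : ℝ} (hcs : c ^ 2 + s ^ 2 = 1) (hs : 0 ≤ s) (hsc : s ≤ c) (hc : 0 < c)
    (ha : ∀ j, 0 < (a j).re) (hai : ∀ j, |(a j).im| ≤ 1) {x : Fin n → ℂ} (hx : nq x = 1)
    (hmax : EE c s ^ 2 * bf x (Phi P Q a) x = 1) :
    (bf x (Phi P Q (fun j => (EE c s ^ 2 * a j) * Complex.log (EE c s ^ 2 * a j))) x).re ≤ 0 := by
  have hE : ‖EE c s ^ 2‖ = 1 := by
    have h1 := EF hcs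
    have h2 : ‖EE c s‖ = ‖FF c s‖ := by rw [← conj_EE, RCLike.norm_conj]
    have h3 : ‖EE c s‖ * ‖FF c s‖ = 1 := by rw [← norm_mul, h1, norm_one]
    rw [norm_pow, sq]
    nth_rewrite 2 [h2]
    exact h3
  obtain ⟨N, hN⟩ : ∃ N, N = Phi P Q (fun j => 1 - EE c s ^ 2 * a j) := ⟨_, rfl⟩
  have hN1 : N = 1 - EE c s ^ 2 • Phi P Q a := by
    rw [hN, eq_sub_iff_add_eq, Phi_smul, Phi_add]
    have : (fun j => 1 - EE c s ^ 2 * a j + EE c s ^ 2 * a j) = fun _ => (1 : ℂ) := by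
      funext j
      ring
    rw [this, Phi_one hPQ]
  have hq : ∀ y, bf y N y = nq y - EE c s ^ 2 * bf y (Phi P Q a) y := fun y => by
    rw [hN1, bf_sub, bf_smul, bf_one, star_dot_self]
    rfl
  have hNpos : ∀ y, 0 ≤ (bf y N y).re := by
    intro y
    rw [hq, Complex.sub_re, Complex.ofReal_re]
    have h1 := Complex.re_le_norm (EE c s ^ 2 * bf y (Phi P Q a) y)
    rw [norm_mul, hE, one_mul] at h1
    have := hrad y
    linarith
  have hNx : bf x N x = 0 := by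
    rw [hq, hx, hmax]
    simp
  obtain ⟨v, hv⟩ : ∃ v, v = N *ᵥ x := ⟨_, rfl⟩
  have hnull : ∀ z, bf x N z = -(star v ⬝ᵥ z) := by
    intro z
    have h1 := null_vector hNpos (by rw [hNx]; rfl) z
    have h2 : (starRingEnd ℂ) (bf z N x) = star v ⬝ᵥ z := by
      unfold bf
      rw [← hv, star_dot_comm]
    rw [h2] at h1
    exact eq_neg_of_add_eq_zero_left h1
  have h1 : Phi P Q (fun j => (EE c s ^ 2 * a j) * Complex.log (EE c s ^ 2 * a j)) + N =
      N * (Phi P Q (fun j => JJ c s (a j)) * N) := by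
    rw [hN, Phi_mul hQP, Phi_mul hQP, Phi_add]
    congr 1
    funext j
    have h2 := JJ_eq hcs hs hsc hc (ha j) (hai j)
    linear_combination -h2
  have h2 : bf x (N * (Phi P Q (fun j => JJ c s (a j)) * N)) x = -bf v (Phi P Q (fun j => JJ c s (a j))) v := by
    rw [bf_mul, hnull, ← Matrix.mulVec_mulVec, ← hv]
    rfl
  have h3 := Jpos hQP hPQ hacc hrad hcs hs hsc hc ha hai v
  have h4 : bf x (Phi P Q (fun j => (EE c s ^ 2 * a j) * Complex.log (EE c s ^ 2 * a j))) x =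
      -bf v (Phi P Q (fun j => JJ c s (a j))) v := by
    rw [← h2, ← h1, bf_add, hNx, add_zero]
  rw [h4, Complex.neg_re]
  linarith

end Q99.FP
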