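import Pool.Agent.Q99.FP.Climb
import Pool.Agent.Q99.FP.Dense
import Pool.Agent.Q99.FP.Defs

/-!
# The main theorem
-/

set_option autoImplicit false
open Filter Topology MeasureTheory Set Matrix
open scoped Real

namespace Q99.FP

variable {n : ℕ}

theorem star_dot_eq_one_iff (x : Fin n → ℂ) : star x ⬝ᵥ x = 1 ↔ nq x = 1 := by
  rw [star_dot_self]
  unfold nq
  constructor
  · intro h
    exact_mod_cast h
  · intro h
    rw [h, Complex.ofReal_one]

theorem numRadius_spec (hn : 1 ≤ n) (A : Matrix (Fin n) (Fin n) ℂ) :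
    (∃ x, nq x = 1 ∧ numRadius A = ‖bf x A x‖) ∧ ∀ y, nq y = 1 → ‖bf y A y‖ ≤ numRadius A := by
  have hne : {x : Fin n → ℂ | nq x = 1}.Nonempty := by
    refine ⟨Pi.single ⟨0, hn⟩ 1, ?_⟩
    show nq (Pi.single (⟨0, hn⟩ : Fin n) (1 : ℂ)) = 1
    unfold nq
    rw [Finset.sum_eq_single (⟨0, hn⟩ : Fin n)]
    · rw [Pi.single_eq_same]
      norm_num
    · intro j _ hj
      rw [Pi.single_eq_of_ne hj]
      norm_num
    · intro h
      exact absurd (Finset.mem_univ _) h
  have hcont : Continuous (fun x : Fin n → ℂ => ‖bf x A x‖) := by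
    simp only [bf, Matrix.mulVec, dotProduct, Pi.star_apply]
    fun_prop
  obtain ⟨x, hx, hmax⟩ := sphere_compact.exists_isMaxOn hne hcont.continuousOn
  have hx' : nq x = 1 := hx
  have hgr : IsGreatest {r : ℝ | ∃ z ∈ numRange A, r = ‖z‖} ‖bf x A x‖ := by
    constructor
    · exact ⟨bf x A x, ⟨x, (star_dot_eq_one_iff x).2 hx', rfl⟩, rfl⟩
    · rintro r ⟨z, ⟨y, hy, rfl⟩, rfl⟩
      exact hmax ((star_dot_eq_one_iff y).1 hy)
  have h1 : numRadius A = ‖bf x A x‖ := hgr.csSup_eq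
  refine ⟨⟨x, hx', h1⟩, fun y hy => ?_⟩
  rw [h1]
  exact hmax hy

/-- the fractional powers of a diagonalizable matrix -/
theorem fracPow_Phi {P Q : Matrix (Fin n) (Fin n) ℂ} (hQP : Q * P = 1) (hPQ : P * Q = 1) {a : Fin n → ℂ}
    (ha : ∀ j, 0 < (a j).re) {t : ℝ} (h0 : 0 < t) (h1 : t < 1) :
    fracPow (Phi P Q a) t = Phi P Q (fun j => Complex.exp (t * Complex.log (a j))) := by
  have hent : ∀ (M : Matrix (Fin n) (Fin n) ℂ) (i j : Fin n), M i j = bf (Pi.single i 1) M (Pi.single j 1) := by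
    intro M i j
    unfold bf
    have h2 : star (Pi.single i (1 : ℂ) : Fin n → ℂ) = Pi.single i 1 := by
      funext k
      by_cases hk : k = i
      · subst hk
        simp
      · simp [Pi.single_eq_of_ne hk]
    rw [h2, Matrix.mulVec_single_one, single_one_dotProduct]
    rfl
  ext i j
  rw [hent (Phi P Q _) i j, bf_pow ha h0 h1]
  unfold fracPow
  rw [Matrix.of_apply]
  congr 1
  apply setIntegral_congr_fun measurableSet_Ioi
  intro s hs
  have hs0 : (0 : ℝ) < s := hs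
  show ((s ^ (t - 1) : ℝ) : ℂ) * (Phi P Q a * ((s : ℂ) • (1 : Matrix (Fin n) (Fin n) ℂ) + Phi P Q a)⁻¹) i j =
    ((s ^ (t - 1) : ℝ) : ℂ) * bf (Pi.single i 1) (Phi P Q fun j => a j / ((s : ℂ) + a j)) (Pi.single j 1)
  rw [← hent]
  congr 2
  have hne : ∀ j, (s : ℂ) + a j ≠ 0 := fun j => add_ne (ha j) hs0.le
  have h2 : (s : ℂ) • (1 : Matrix (Fin n) (Fin n) ℂ) + Phi P Q a = Phi P Q (fun j => (s : ℂ) + a j) := by
    rw [← Phi_one hPQ, Phi_smul, Phi_add]
    congr 1
    funext j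
    rw [mul_one]
  have h3 : (Phi P Q (fun j => (s : ℂ) + a j))⁻¹ = Phi P Q (fun j => ((s : ℂ) + a j)⁻¹) := by
    apply Matrix.inv_eq_right_inv
    rw [Phi_mul hQP]
    have : (fun j => ((s : ℂ) + a j) * ((s : ℂ) + a j)⁻¹) = fun _ => (1 : ℂ) := by
      funext j
      exact mul_inv_cancel₀ (hne j)
    rw [this, Phi_one hPQ]
  rw [h2, h3, Phi_mul hQP]
  rfl

/-- bound of the resolvent -/
theorem resolvent_bound {M : Matrix (Fin n) (Fin n) ℂ} (hM : ∀ y, 0 ≤ (bf y M y).re) {m : ℝ}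
    (hm : ∀ i j, ‖M i j‖ ≤ m) {s : ℝ} (hs : 0 < s) :
    IsUnit ((s : ℂ) • (1 : Matrix (Fin n) (Fin n) ℂ) + M).det ∧
    ∀ i j, ‖(M * ((s : ℂ) • (1 : Matrix (Fin n) (Fin n) ℂ) + M)⁻¹) i j‖ ≤ (4 + 2 * n * m) / (s + 1) := by
  have hform : ∀ z : Fin n → ℂ, bf z ((s : ℂ) • (1 : Matrix (Fin n) (Fin n) ℂ) + M) z = s * nq z + bf z M z := by
    intro z
    rw [bf_add, bf_smul, bf_one, star_dot_self]
    rfl
  have hunit : IsUnit ((s : ℂ) • (1 : Matrix (Fin n) (Fin n) ℂ) + M).det := by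
    rw [isUnit_iff_ne_zero]
    intro h0
    obtain ⟨z, hz, hz0⟩ := Matrix.exists_mulVec_eq_zero_iff.2 h0
    have h1 := hform z
    unfold bf at h1
    rw [hz0, dotProduct_zero] at h1
    have h2 := congrArg Complex.re h1
    rw [Complex.add_re, ← Complex.ofReal_mul, Complex.ofReal_re, Complex.zero_re] at h2
    have h3 := hM z
    unfold bf at h3
    have h4 := mul_pos hs (nq_pos hz)
    linarith
  refine ⟨hunit, ?_⟩
  obtain ⟨R, hR⟩ : ∃ R, R = ((s : ℂ) • (1 : Matrix (Fin n) (Fin n) ℂ) + M)⁻¹ := ⟨_, rfl⟩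
  have hMR : ((s : ℂ) • (1 : Matrix (Fin n) (Fin n) ℂ) + M) * R = 1 := by
    rw [hR]
    exact Matrix.mul_nonsing_inv _ hunit
  rw [← hR]
  have hentry : ∀ i j, ‖R i j‖ ≤ 1 / s := by
    intro i j
    obtain ⟨z, hz⟩ : ∃ z, z = R *ᵥ Pi.single j 1 := ⟨_, rfl⟩
    have h1 : ((s : ℂ) • (1 : Matrix (Fin n) (Fin n) ℂ) + M) *ᵥ z = Pi.single j 1 := by
      rw [hz, Matrix.mulVec_mulVec, hMR, Matrix.one_mulVec]
    have h2 := hform z
    unfold bf at h2
    rw [h1] at h2
    have h3 : star z ⬝ᵥ (Pi.single j 1 : Fin n → ℂ) = star (z j) := by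
      rw [dotProduct_single_one]
      rfl
    rw [h3] at h2
    have h4 := congrArg Complex.re h2
    rw [Complex.add_re, ← Complex.ofReal_mul, Complex.ofReal_re] at h4
    have h5 : (star (z j)).re ≤ ‖z j‖ := by
      have := Complex.re_le_norm (star (z j))
      rwa [norm_star] at this
    have h6 : s * nq z ≤ ‖z j‖ := by
      have h7 := hM z
      unfold bf at h7
      linarith
    have h8 : ∀ k, ‖z k‖ ^ 2 ≤ nq z := fun k =>
      Finset.single_le_sum (f := fun j => ‖z j‖ ^ 2) (fun _ _ => sq_nonneg _) (Finset.mem_univ k)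
    have h9 : ‖z j‖ ≤ 1 / s := by
      rw [le_div_iff₀ hs]
      have h10 : s * ‖z j‖ ^ 2 ≤ ‖z j‖ := (mul_le_mul_of_nonneg_left (h8 j) hs.le).trans h6
      by_contra hcon
      push Not at hcon
      have h11 : 0 < ‖z j‖ := by
        by_contra h12
        push Not at h12
        have : ‖z j‖ = 0 := le_antisymm h12 (norm_nonneg _)
        rw [this] at hcon
        linarith
      nlinarith
    have h12 : ‖z i‖ ≤ 1 / s := by
      have h13 : ‖z i‖ ^ 2 ≤ (1 / s) ^ 2 := by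
        have h14 : s * ‖z i‖ ^ 2 ≤ 1 / s := (mul_le_mul_of_nonneg_left (h8 i) hs.le).trans (h6.trans h9)
        have h15 : (1 / s) ^ 2 = (1 / s) * (1 / s) := by ring
        rw [h15]
        calc ‖z i‖ ^ 2 = (1 / s) * (s * ‖z i‖ ^ 2) := by field_simp
          _ ≤ (1 / s) * (1 / s) := mul_le_mul_of_nonneg_left h14 (by positivity)
      exact le_of_sq_le_sq h13 (by positivity)
    have h16 : z i = R i j := by
      rw [hz, Matrix.mulVec_single_one]
      rfl
    rw [← h16]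
    exact h12
  intro i j
  have hb1 : ‖(M * R) i j‖ ≤ 2 := by
    have h1 : M * R = 1 - (s : ℂ) • R := by
      rw [eq_sub_iff_add_eq, ← hMR, Matrix.add_mul, Matrix.smul_mul, Matrix.one_mul]
      abel
    rw [h1, Matrix.sub_apply, Matrix.smul_apply, smul_eq_mul]
    refine (norm_sub_le _ _).trans ?_
    have h2 : ‖(1 : Matrix (Fin n) (Fin n) ℂ) i j‖ ≤ 1 := by
      rw [Matrix.one_apply]
      split_ifs
      · rw [norm_one]
      · rw [norm_zero]
        exact zero_le_one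
    have h3 : ‖(s : ℂ) * R i j‖ ≤ 1 := by
      rw [norm_mul, Complex.norm_real, Real.norm_eq_abs, abs_of_pos hs]
      have := mul_le_mul_of_nonneg_left (hentry i j) hs.le
      rwa [mul_one_div_cancel hs.ne'] at this
    linarith
  have hb2 : ‖(M * R) i j‖ ≤ n * m / s := by
    rw [Matrix.mul_apply]
    refine (norm_sum_le _ _).trans ?_
    calc ∑ k, ‖M i k * R k j‖ ≤ ∑ _k : Fin n, m * (1 / s) := by
          apply Finset.sum_le_sum
          intro k _
          rw [norm_mul]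
          exact mul_le_mul (hm i k) (hentry k j) (norm_nonneg _) ((norm_nonneg _).trans (hm i k))
      _ = n * m / s := by
          rw [Finset.sum_const, Finset.card_univ, Fintype.card_fin, nsmul_eq_mul]
          ring
  have hm0 : 0 ≤ m := (norm_nonneg _).trans (hm i j)
  rw [le_div_iff₀ (by linarith)]
  rcases le_total s 1 with h | h
  · have h1 : ‖(M * R) i j‖ * (s + 1) ≤ 2 * 2 := mul_le_mul hb1 (by linarith) (by linarith) (by norm_num)
    have : 0 ≤ 2 * n * m := by positivity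
    linarith
  · rw [le_div_iff₀ hs] at hb2
    have h1 : ‖(M * R) i j‖ * 1 ≤ ‖(M * R) i j‖ * s := mul_le_mul_of_nonneg_left h (norm_nonneg _)
    nlinarith

/-- bound of a form by the entries -/
theorem bf_le_entries (M : Matrix (Fin n) (Fin n) ℂ) {y : Fin n → ℂ} (hy : nq y = 1) :
    ‖bf y M y‖ ≤ ∑ i, ∑ j, ‖M i j‖ := by
  have h1 : ∀ k, ‖y k‖ ≤ 1 := by
    intro k
    have h2 : ‖y k‖ ^ 2 ≤ nq y := Finset.single_le_sum (f := fun j => ‖y j‖ ^ 2) (fun _ _ => sq_nonneg _) (Finset.mem_univ k)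
    rw [hy] at h2
    exact (sq_le_one_iff₀ (norm_nonneg _)).1 h2
  unfold bf
  simp only [Matrix.mulVec, dotProduct, Pi.star_apply]
  refine (norm_sum_le _ _).trans ?_
  apply Finset.sum_le_sum
  intro i _
  rw [norm_mul, norm_star]
  calc ‖y i‖ * ‖∑ j, M i j * y j‖ ≤ 1 * ‖∑ j, M i j * y j‖ := mul_le_mul_of_nonneg_right (h1 i) (norm_nonneg _)
    _ = ‖∑ j, M i j * y j‖ := one_mul _
    _ ≤ ∑ j, ‖M i j * y j‖ := norm_sum_le _ _
    _ ≤ ∑ j, ‖M i j‖ := by
        apply Finset.sum_le_sum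
        intro j _
        rw [norm_mul]
        calc ‖M i j‖ * ‖y j‖ ≤ ‖M i j‖ * 1 := mul_le_mul_of_nonneg_left (h1 j) (norm_nonneg _)
          _ = ‖M i j‖ := mul_one _

/-- continuity of the fractional powers along a perturbation -/
theorem fracPow_tendsto {A D : Matrix (Fin n) (Fin n) ℂ} {u : ℕ → ℝ} (hu0 : ∀ k, 0 ≤ u k) (hu1 : ∀ k, u k ≤ 1)
    (hulim : Tendsto u atTop (𝓝 0)) (hA : ∀ y, 0 ≤ (bf y A y).re) (hD : ∀ y, 0 ≤ (bf y D y).re) {t : ℝ}
    (h0 : 0 < t) (h1 : t < 1) (i j : Fin n) :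
    Tendsto (fun k => fracPow (A + (u k : ℂ) • D) t i j) atTop (𝓝 (fracPow A t i j)) := by
  have hacc : ∀ v : ℝ, 0 ≤ v → ∀ y, 0 ≤ (bf y (A + (v : ℂ) • D) y).re := by
    intro v hv y
    rw [bf_add, bf_smul, Complex.add_re, Complex.re_ofReal_mul]
    exact add_nonneg (hA y) (mul_nonneg hv (hD y))
  obtain ⟨m, hm⟩ : ∃ m, m = ∑ i, ∑ j, (‖A i j‖ + ‖D i j‖) := ⟨_, rfl⟩
  have hment : ∀ v : ℝ, 0 ≤ v → v ≤ 1 → ∀ i j, ‖(A + (v : ℂ) • D) i j‖ ≤ m := by
    intro v hv hv1 i j
    have h2 : ‖(A + (v : ℂ) • D) i j‖ ≤ ‖A i j‖ + ‖D i j‖ := by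
      rw [Matrix.add_apply, Matrix.smul_apply, smul_eq_mul]
      refine (norm_add_le _ _).trans ?_
      rw [norm_mul, Complex.norm_real, Real.norm_eq_abs, abs_of_nonneg hv]
      have := mul_le_mul_of_nonneg_right hv1 (norm_nonneg (D i j))
      linarith
    refine h2.trans ?_
    rw [hm]
    refine le_trans (Finset.single_le_sum (f := fun j => ‖A i j‖ + ‖D i j‖) (fun _ _ => by positivity) (Finset.mem_univ j)) ?_
    exact Finset.single_le_sum (f := fun i => ∑ j, (‖A i j‖ + ‖D i j‖))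
      (fun _ _ => Finset.sum_nonneg fun _ _ => by positivity) (Finset.mem_univ i)
  unfold fracPow
  simp only [Matrix.of_apply]
  apply Tendsto.const_mul
  have hsmeas : ∀ v : ℝ, 0 ≤ v → AEStronglyMeasurable (fun s : ℝ => ((s ^ (t - 1) : ℝ) : ℂ) *
      ((A + (v : ℂ) • D) * ((s : ℂ) • (1 : Matrix (Fin n) (Fin n) ℂ) + (A + (v : ℂ) • D))⁻¹) i j) (volume.restrict (Ioi 0)) := by
    intro v hv
    apply ContinuousOn.aestronglyMeasurable _ measurableSet_Ioi
    apply ContinuousOn.mul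
    · apply Complex.continuous_ofReal.comp_continuousOn
      apply ContinuousOn.rpow_const continuousOn_id
      intro s hs
      exact Or.inl (ne_of_gt hs)
    · have h2 : ∀ s : ℝ, ((A + (v : ℂ) • D) * ((s : ℂ) • (1 : Matrix (Fin n) (Fin n) ℂ) + (A + (v : ℂ) • D))⁻¹) i j =
          (((s : ℂ) • (1 : Matrix (Fin n) (Fin n) ℂ) + (A + (v : ℂ) • D)).det)⁻¹ *
          ((A + (v : ℂ) • D) * ((s : ℂ) • (1 : Matrix (Fin n) (Fin n) ℂ) + (A + (v : ℂ) • D)).adjugate) i j := by
        intro s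
        rw [Matrix.inv_def, Matrix.mul_smul, Matrix.smul_apply, Ring.inverse_eq_inv', smul_eq_mul]
      simp only [h2]
      have hc : Continuous (fun s : ℝ => (s : ℂ) • (1 : Matrix (Fin n) (Fin n) ℂ) + (A + (v : ℂ) • D)) := by fun_prop
      apply ContinuousOn.mul
      · apply ContinuousOn.inv₀ hc.matrix_det.continuousOn
        intro s hs
        exact (resolvent_bound (hacc v hv) (m := ∑ i, ∑ j, ‖(A + (v : ℂ) • D) i j‖) (fun i j => by
          refine le_trans (Finset.single_le_sum (f := fun j => ‖(A + (v : ℂ) • D) i j‖) (fun _ _ => norm_nonneg _) (Finset.mem_univ j)) ?_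
          exact Finset.single_le_sum (f := fun i => ∑ j, ‖(A + (v : ℂ) • D) i j‖)
            (fun _ _ => Finset.sum_nonneg fun _ _ => norm_nonneg _) (Finset.mem_univ i)) hs).1.ne_zero
      · exact ((continuous_const.matrix_mul hc.matrix_adjugate).matrix_elem i j).continuousOn
  have h00 : A = A + ((0 : ℝ) : ℂ) • D := by
    rw [Complex.ofReal_zero, zero_smul, add_zero]
  apply tendsto_integral_of_dominated_convergence (fun s : ℝ => s ^ (t - 1) / (s + 1) * (4 + 2 * n * m))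
  · intro k
    exact hsmeas (u k) (hu0 k)
  · exact (integrable_real h0 h1 one_pos).mul_const _
  · intro k
    rw [ae_restrict_iff' measurableSet_Ioi]
    filter_upwards with s hs
    have hs0 : (0 : ℝ) < s := hs
    rw [norm_mul, Complex.norm_real, Real.norm_eq_abs, abs_of_pos (Real.rpow_pos_of_pos hs0 _)]
    have h2 := (resolvent_bound (hacc (u k) (hu0 k)) (hment (u k) (hu0 k) (hu1 k)) hs0).2 i j
    have h3 := mul_le_mul_of_nonneg_left h2 (Real.rpow_pos_of_pos hs0 (t - 1)).le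
    refine h3.trans (le_of_eq ?_)
    ring
  · rw [ae_restrict_iff' measurableSet_Ioi]
    filter_upwards with s hs
    have hs0 : (0 : ℝ) < s := hs
    apply Tendsto.const_mul
    have h2 : ContinuousAt (fun v : ℝ => ((A + (v : ℂ) • D) *
        ((s : ℂ) • (1 : Matrix (Fin n) (Fin n) ℂ) + (A + (v : ℂ) • D))⁻¹) i j) 0 := by
      have h3 : ∀ v : ℝ, ((A + (v : ℂ) • D) * ((s : ℂ) • (1 : Matrix (Fin n) (Fin n) ℂ) + (A + (v : ℂ) • D))⁻¹) i j =
          (((s : ℂ) • (1 : Matrix (Fin n) (Fin n) ℂ) + (A + (v : ℂ) • D)).det)⁻¹ *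
          ((A + (v : ℂ) • D) * ((s : ℂ) • (1 : Matrix (Fin n) (Fin n) ℂ) + (A + (v : ℂ) • D)).adjugate) i j := by
        intro v
        rw [Matrix.inv_def, Matrix.mul_smul, Matrix.smul_apply, Ring.inverse_eq_inv', smul_eq_mul]
      simp only [h3]
      have hc0 : Continuous (fun v : ℝ => A + (v : ℂ) • D) := by fun_prop
      have hc : Continuous (fun v : ℝ => (s : ℂ) • (1 : Matrix (Fin n) (Fin n) ℂ) + (A + (v : ℂ) • D)) := by fun_prop
      apply ContinuousAt.mul
      · apply ContinuousAt.inv₀ hc.matrix_det.continuousAt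
        exact (resolvent_bound (hacc 0 le_rfl) (hment 0 le_rfl zero_le_one) hs0).1.ne_zero
      · exact ((hc0.matrix_mul hc.matrix_adjugate).matrix_elem i j).continuousAt
    have h4 := h2.tendsto.comp hulim
    have h5 : ((A + ((0 : ℝ) : ℂ) • D) * ((s : ℂ) • (1 : Matrix (Fin n) (Fin n) ℂ) + (A + ((0 : ℝ) : ℂ) • D))⁻¹) i j =
        (A * ((s : ℂ) • (1 : Matrix (Fin n) (Fin n) ℂ) + A)⁻¹) i j := by rw [← h00]
    rw [h5] at h4
    exact h4

/-- Main theorem. -/
theorem main (hn : 1 ≤ n) {A : Matrix (Fin n) (Fin n) ℂ} (hA : Accretive A) {t : ℝ} (h0 : 0 < t) (h1 : t < 1) :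
    numRadius A ^ t ≤ numRadius (fracPow A t) := by
  have hpos1 : ∀ y, nq y = 1 → 0 < (bf y A y).re := fun y hy => hA _ ⟨y, (star_dot_eq_one_iff y).2 hy, rfl⟩
  have hposy : ∀ y, y ≠ 0 → 0 < (bf y A y).re := by
    intro y hy
    have hpos := nq_pos hy
    obtain ⟨r, hr⟩ : ∃ r, r = √(nq y) := ⟨_, rfl⟩
    have hr0 : 0 < r := by rw [hr]; exact Real.sqrt_pos.2 hpos
    have hr2 : r ^ 2 = nq y := by rw [hr]; exact Real.sq_sqrt hpos.le
    have h2 := hpos1 (((r⁻¹ : ℝ) : ℂ) • y) (by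
      rw [nq_smul, Complex.norm_real, Real.norm_eq_abs, abs_of_pos (by positivity), ← hr2]
      field_simp)
    rw [bf_smul_left, bf_smul_right, Complex.conj_ofReal, Complex.re_ofReal_mul, Complex.re_ofReal_mul] at h2
    have h3 : 0 < r⁻¹ := by positivity
    exact (mul_pos_iff_of_pos_left h3).1 ((mul_pos_iff_of_pos_left h3).1 h2)
  have hnn : ∀ y, 0 ≤ (bf y A y).re := by
    intro y
    by_cases hy : y = 0
    · rw [hy]
      unfold bf
      simp
    · exact (hposy y hy).le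
  obtain ⟨D, hD⟩ : ∃ D : Matrix (Fin n) (Fin n) ℂ, D = diagonal (fun j : Fin n => ((j : ℕ) : ℂ)) := ⟨_, rfl⟩
  have hDnn : ∀ y, 0 ≤ (bf y D y).re := by
    intro y
    unfold bf dotProduct
    rw [hD, Complex.re_sum]
    apply Finset.sum_nonneg
    intro j _
    rw [Matrix.mulVec_diagonal, Pi.star_apply]
    have : star (y j) * (((j : ℕ) : ℂ) * y j) = (((j : ℕ) : ℝ) * ‖y j‖ ^ 2 : ℝ) := by
      show (starRingEnd ℂ) (y j) * (((j : ℕ) : ℂ) * y j) = _
      have h2 : (starRingEnd ℂ) (y j) * y j = ((‖y j‖ ^ 2 : ℝ) : ℂ) := by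
        rw [mul_comm, Complex.mul_conj, Complex.normSq_eq_norm_sq]
      push_cast at h2 ⊢
      linear_combination ((j : ℕ) : ℂ) * h2
    rw [this, Complex.ofReal_re]
    positivity
  have hex : ∀ k : ℕ, ∃ u : ℝ, 0 < u ∧ u < 1 / ((k : ℝ) + 1) ∧ ∃ (P Q : Matrix (Fin n) (Fin n) ℂ) (a : Fin n → ℂ),
      Q * P = 1 ∧ P * Q = 1 ∧ A + (u : ℂ) • D = Phi P Q a := by
    intro k
    rw [hD]
    exact exists_diag A (by positivity)
  choose u hu0 hu1 P Q a hQP hPQ hAk using hex
  have hulim : Tendsto u atTop (𝓝 0) :=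
    squeeze_zero (fun k => (hu0 k).le) (fun k => (hu1 k).le) tendsto_one_div_add_atTop_nhds_zero_nat
  have hu1' : ∀ k, u k ≤ 1 := fun k => by
    refine (hu1 k).le.trans ?_
    rw [div_le_one (by positivity)]
    have : (0 : ℝ) ≤ k := Nat.cast_nonneg k
    linarith
  obtain ⟨⟨x, hx, hxA⟩, _⟩ := numRadius_spec hn A
  obtain ⟨_, hFmax⟩ := numRadius_spec hn (fracPow A t)
  have hxne : x ≠ 0 := by
    rintro rfl
    unfold nq at hx
    simp at hx
  have hstep : ∀ k, ∃ y, nq y = 1 ∧ ‖bf x (A + (u k : ℂ) • D) x‖ ^ t ≤ ‖bf y (fracPow (A + (u k : ℂ) • D) t) y‖ := by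
    intro k
    have hform : ∀ y, (bf y (A + (u k : ℂ) • D) y).re = (bf y A y).re + u k * (bf y D y).re := fun y => by
      rw [bf_add, bf_smul, Complex.add_re, Complex.re_ofReal_mul]
    have hare : ∀ j, 0 < (a k j).re := by
      intro j
      obtain ⟨w, hw, hw2⟩ := eig_form (P := P k) (hQP k) (a k) j
      rw [← hAk] at hw2
      have h2 := hform w
      rw [hw2, mul_comm, Complex.re_ofReal_mul] at h2
      have h3 := hposy w hw
      have h4 := mul_nonneg (hu0 k).le (hDnn w)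
      have h5 : 0 < nq w * (a k j).re := by linarith
      exact (mul_pos_iff_of_pos_left (nq_pos hw)).1 h5
    obtain ⟨l, hl⟩ : ∃ l : Fin n → ℂ, l = fun j => Complex.log (a k j) := ⟨_, rfl⟩
    have hexp : ∀ j, Complex.exp (l j) = a k j := by
      intro j
      rw [hl]
      apply Complex.exp_log
      intro h2
      have := hare j
      rw [h2] at this
      simp at this
    have hlim : ∀ j, |(l j).im| < π / 2 := by
      intro j
      rw [hl]
      show |(Complex.log (a k j)).im| < π / 2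
      rw [Complex.log_im]
      exact Complex.abs_arg_lt_pi_div_two_iff.2 (Or.inl (hare j))
    have hAt1 : At (P k) (Q k) l 1 = A + (u k : ℂ) • D := by
      rw [hAk]
      unfold At
      congr 1
      funext j
      rw [Complex.ofReal_one, one_mul, hexp]
    have hAtt : At (P k) (Q k) l t = fracPow (A + (u k : ℂ) • D) t := by
      rw [hAk, fracPow_Phi (hQP k) (hPQ k) hare h0 h1, hl]
      rfl
    have hacc1 : ∀ y, 0 ≤ (bf y (At (P k) (Q k) l 1) y).re := by
      intro y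
      rw [hAt1, hform]
      exact add_nonneg (hnn y) (mul_nonneg (hu0 k).le (hDnn y))
    have hG : 0 < ‖bf x (At (P k) (Q k) l 1) x‖ := by
      rw [hAt1]
      apply norm_pos_iff.2
      intro h2
      have h3 := hform x
      rw [h2, Complex.zero_re] at h3
      have h4 := hposy x hxne
      have h5 := mul_nonneg (hu0 k).le (hDnn x)
      linarith
    obtain ⟨y, hy, hy2⟩ := climb (hQP k) (hPQ k) hlim hacc1 h0 h1 hx hG
    rw [hAt1, hAtt] at hy2
    exact ⟨y, hy, hy2⟩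
  choose y hy hy2 using hstep
  have hlower : ∀ k, ‖bf x (A + (u k : ℂ) • D) x‖ ^ t ≤ numRadius (fracPow A t) +
      ∑ i, ∑ j, ‖fracPow (A + (u k : ℂ) • D) t i j - fracPow A t i j‖ := by
    intro k
    refine (hy2 k).trans ?_
    have e1 : fracPow (A + (u k : ℂ) • D) t = fracPow A t + (fracPow (A + (u k : ℂ) • D) t - fracPow A t) := by abel
    have h2 : bf (y k) (fracPow (A + (u k : ℂ) • D) t) (y k) = bf (y k) (fracPow A t) (y k) +
        bf (y k) (fracPow (A + (u k : ℂ) • D) t - fracPow A t) (y k) := by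
      rw [← bf_add, ← e1]
    rw [h2]
    refine (norm_add_le _ _).trans (add_le_add (hFmax _ (hy k)) ?_)
    exact bf_le_entries _ (hy k)
  have hlimL : Tendsto (fun k => ‖bf x (A + (u k : ℂ) • D) x‖ ^ t) atTop (𝓝 (numRadius A ^ t)) := by
    have hc : Continuous (fun v : ℝ => ‖bf x (A + (v : ℂ) • D) x‖ ^ t) := by
      apply Continuous.rpow_const
      · apply Continuous.norm
        have : (fun v : ℝ => bf x (A + (v : ℂ) • D) x) = fun v : ℝ => bf x A x + (v : ℂ) * bf x D x := by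
          funext v
          rw [bf_add, bf_smul]
        rw [this]
        fun_prop
      · intro v
        exact Or.inr h0.le
    have h2 := (hc.tendsto 0).comp hulim
    have h3 : ‖bf x (A + ((0 : ℝ) : ℂ) • D) x‖ ^ t = numRadius A ^ t := by
      rw [Complex.ofReal_zero, zero_smul, add_zero, hxA]
    rw [h3] at h2
    exact h2
  have hlimR : Tendsto (fun k => numRadius (fracPow A t) +
      ∑ i, ∑ j, ‖fracPow (A + (u k : ℂ) • D) t i j - fracPow A t i j‖) atTop (𝓝 (numRadius (fracPow A t) + 0)) := by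
    apply Tendsto.const_add
    have h2 : (0 : ℝ) = ∑ _i : Fin n, ∑ _j : Fin n, 0 := by simp
    rw [h2]
    apply tendsto_finsetSum
    intro i _
    apply tendsto_finsetSum
    intro j _
    have h3 := fracPow_tendsto (fun k => (hu0 k).le) hu1' hulim hnn hDnn h0 h1 i j
    rw [tendsto_iff_norm_sub_tendsto_zero] at h3
    exact h3
  rw [add_zero] at hlimR
  exact le_of_tendsto_of_tendsto hlimL hlimR (Eventually.of_forall hlower)

end Q99.FP
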