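import Pool.Agent.Q99.FP.Scal

/-!
# Diagonalizable matrices
-/

set_option autoImplicit false
open Filter Topology MeasureTheory Set Matrix
open scoped Real

namespace Q99.FP

/-! ### homogeneous forms of the real part inequalities -/

theorem ineqY {c s r : ℝ} (hcs : c ^ 2 + s ^ 2 = 1) (hs : 0 ≤ s) (hc : 0 < c) (hr0 : 0 ≤ r) (hr : 2 * r * c ≤ 1) :
    0 ≤ 2 * s * c - r * (3 * s - 4 * s ^ 3) := by
  have e : 3 * s - 4 * s ^ 3 = s * (4 * c ^ 2 - 1) := by
    have : s ^ 2 = 1 - c ^ 2 := by linarith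
    have : s ^ 3 = s * (1 - c ^ 2) := by rw [← this]; ring
    rw [this]
    ring
  rw [e]
  have h4 : r * (4 * c ^ 2 - 1) ≤ 2 * c := by
    have : r * c * c ≤ 1 / 2 * c := mul_le_mul_of_nonneg_right (by linarith) hc.le
    nlinarith
  have h5 := mul_le_mul_of_nonneg_left h4 hs
  linarith

theorem reAN {c s : ℝ} (hcs : c ^ 2 + s ^ 2 = 1) (r N : ℝ) (z : ℂ) :
    (FF c s ^ 2 * (r * EE c s * N + (1 - r * EE c s) * EE c s ^ 2 * z)).re =
      r * (c * N - z.im * s) + z.re * (1 - r * c) := by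
  have h := EF hcs
  have e : FF c s ^ 2 * (r * EE c s * N + (1 - r * EE c s) * EE c s ^ 2 * z) = r * FF c s * N + (1 - r * EE c s) * z := by
    linear_combination (r * FF c s * N + (1 - r * EE c s) * z * (EE c s * FF c s + 1)) * h
  rw [e]
  unfold EE FF
  simp
  ring

theorem reBN {c s : ℝ} (hcs : c ^ 2 + s ^ 2 = 1) (r N : ℝ) (z : ℂ) :
    (EE c s * (1 - r * EE c s) * ((1 - r * FF c s) * N + r * EE c s * z)).re =
      c * (1 - 2 * r * c + r ^ 2) * N + r * (z.re * ((c ^ 2 - s ^ 2) - r * (4 * c ^ 3 - 3 * c)) +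
      z.im * (2 * s * c - r * (3 * s - 4 * s ^ 3))) := by
  have h := EF hcs
  have hsum : EE c s + FF c s = ((2 * c : ℝ) : ℂ) := by
    unfold EE FF
    push_cast
    ring
  have e : EE c s * (1 - r * EE c s) * ((1 - r * FF c s) * N + r * EE c s * z) =
      EE c s * ((1 - 2 * r * c + r ^ 2 : ℝ) : ℂ) * N + r * (EE c s ^ 2 - r * EE c s ^ 3) * z := by
    push_cast at hsum ⊢
    linear_combination (EE c s * r ^ 2 * N) * h - (EE c s * r * N) * hsum
  rw [e, EE_sq_eq, EE_cube_eq hcs]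
  generalize 1 - 2 * r * c + r ^ 2 = p
  generalize c ^ 2 - s ^ 2 = q1
  generalize 2 * s * c = q2
  generalize 4 * c ^ 3 - 3 * c = q3
  generalize 3 * s - 4 * s ^ 3 = q4
  unfold EE
  simp
  ring

theorem posA {c s r N : ℝ} {z : ℂ} (hcs : c ^ 2 + s ^ 2 = 1) (hs : 0 ≤ s) (hsc : s ≤ c) (hr0 : 0 ≤ r)
    (hr : 2 * r * c ≤ 1) (hz : 0 ≤ z.re) (hN : ‖z‖ ≤ N) :
    0 ≤ (FF c s ^ 2 * (r * EE c s * N + (1 - r * EE c s) * EE c s ^ 2 * z)).re := by
  rw [reAN hcs]
  have h1 := (abs_le.1 ((Complex.abs_im_le_norm z).trans hN)).2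
  have hN0 : 0 ≤ N := (norm_nonneg _).trans hN
  have h2 : z.im * s ≤ c * N := by
    calc z.im * s ≤ N * s := mul_le_mul_of_nonneg_right h1 hs
      _ ≤ N * c := mul_le_mul_of_nonneg_left hsc hN0
      _ = c * N := mul_comm _ _
  have h3 := mul_nonneg hr0 (sub_nonneg.2 h2)
  have h4 := mul_nonneg hz (show 0 ≤ 1 - r * c by linarith)
  linarith

theorem posB {c s r N : ℝ} {z : ℂ} (hcs : c ^ 2 + s ^ 2 = 1) (hs : 0 ≤ s) (hsc : s ≤ c) (hc : 0 < c) (hr0 : 0 ≤ r)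
    (hr : 2 * r * c ≤ 1) (hz : 0 ≤ z.re) (hN : ‖z‖ ≤ N) :
    0 ≤ (EE c s * (1 - r * EE c s) * ((1 - r * FF c s) * N + r * EE c s * z)).re := by
  rw [reBN hcs]
  have h1 := (abs_le.1 ((Complex.abs_im_le_norm z).trans hN)).1
  have hN0 : 0 ≤ N := (norm_nonneg _).trans hN
  have h2 := mul_le_mul_of_nonneg_right (sub_nonneg.1 (ineqQ (r := r) hcs hs hsc hc)) hN0
  have h3 := mul_nonneg hr0 (mul_nonneg hz (ineqX hcs hs hsc hc hr0 hr))
  have h4 := mul_nonneg hr0 (mul_nonneg (show 0 ≤ N + z.im by linarith) (ineqY hcs hs hc hr0 hr))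
  linarith

/-! ### the functional calculus -/

variable {n : ℕ}

/-- `P diag(g) Q` -/
noncomputable def Phi (P Q : Matrix (Fin n) (Fin n) ℂ) (g : Fin n → ℂ) : Matrix (Fin n) (Fin n) ℂ :=
  P * Matrix.diagonal g * Q

/-- the sesquilinear form -/
def bf (y : Fin n → ℂ) (M : Matrix (Fin n) (Fin n) ℂ) (x : Fin n → ℂ) : ℂ := star y ⬝ᵥ (M *ᵥ x)

theorem bf_Phi (P Q : Matrix (Fin n) (Fin n) ℂ) (g : Fin n → ℂ) (y x : Fin n → ℂ) :
    bf y (Phi P Q g) x = ∑ j, g j * ((star y ᵥ* P) j * (Q *ᵥ x) j) := by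
  unfold bf Phi
  rw [← Matrix.mulVec_mulVec, ← Matrix.mulVec_mulVec, Matrix.dotProduct_mulVec]
  unfold dotProduct
  apply Finset.sum_congr rfl
  intro j _
  rw [Matrix.mulVec_diagonal]
  ring

theorem Phi_mul {P Q : Matrix (Fin n) (Fin n) ℂ} (h : Q * P = 1) (f g : Fin n → ℂ) :
    Phi P Q f * Phi P Q g = Phi P Q (fun j => f j * g j) := by
  unfold Phi
  calc P * diagonal f * Q * (P * diagonal g * Q) = P * diagonal f * (Q * P) * diagonal g * Q := by
        simp only [Matrix.mul_assoc]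
    _ = P * (diagonal f * diagonal g) * Q := by rw [h, Matrix.mul_one]; simp only [Matrix.mul_assoc]
    _ = _ := by rw [Matrix.diagonal_mul_diagonal]

theorem Phi_add (P Q : Matrix (Fin n) (Fin n) ℂ) (f g : Fin n → ℂ) :
    Phi P Q f + Phi P Q g = Phi P Q (fun j => f j + g j) := by
  unfold Phi
  rw [← Matrix.diagonal_add, Matrix.mul_add, Matrix.add_mul]

theorem Phi_smul (P Q : Matrix (Fin n) (Fin n) ℂ) (c : ℂ) (g : Fin n → ℂ) :
    c • Phi P Q g = Phi P Q (fun j => c * g j) := by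
  unfold Phi
  have : diagonal (fun j => c * g j) = c • diagonal g := by
    rw [← Matrix.diagonal_smul]
    rfl
  rw [this, Matrix.mul_smul, Matrix.smul_mul]

theorem Phi_one {P Q : Matrix (Fin n) (Fin n) ℂ} (h : P * Q = 1) : Phi P Q (fun _ => 1) = 1 := by
  unfold Phi
  rw [Matrix.diagonal_one, Matrix.mul_one, h]

theorem bf_one (y x : Fin n → ℂ) : bf y 1 x = star y ⬝ᵥ x := by
  unfold bf
  rw [Matrix.one_mulVec]

theorem bf_add (y x : Fin n → ℂ) (M N : Matrix (Fin n) (Fin n) ℂ) : bf y (M + N) x = bf y M x + bf y N x := by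
  unfold bf
  rw [Matrix.add_mulVec, dotProduct_add]

theorem bf_sub (y x : Fin n → ℂ) (M N : Matrix (Fin n) (Fin n) ℂ) : bf y (M - N) x = bf y M x - bf y N x := by
  unfold bf
  rw [Matrix.sub_mulVec, dotProduct_sub]

theorem bf_smul (y x : Fin n → ℂ) (c : ℂ) (M : Matrix (Fin n) (Fin n) ℂ) : bf y (c • M) x = c * bf y M x := by
  unfold bf
  rw [Matrix.smul_mulVec, dotProduct_smul, smul_eq_mul]

theorem bf_mul (y x : Fin n → ℂ) (M N : Matrix (Fin n) (Fin n) ℂ) : bf y (M * N) x = bf y M (N *ᵥ x) := by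
  unfold bf
  rw [← Matrix.mulVec_mulVec]

theorem bf_add_left (y z x : Fin n → ℂ) (M : Matrix (Fin n) (Fin n) ℂ) : bf (y + z) M x = bf y M x + bf z M x := by
  unfold bf
  rw [star_add, add_dotProduct]

theorem bf_add_right (y z x : Fin n → ℂ) (M : Matrix (Fin n) (Fin n) ℂ) : bf x M (y + z) = bf x M y + bf x M z := by
  unfold bf
  rw [Matrix.mulVec_add, dotProduct_add]

theorem bf_smul_left (c : ℂ) (y x : Fin n → ℂ) (M : Matrix (Fin n) (Fin n) ℂ) :
    bf (c • y) M x = (starRingEnd ℂ) c * bf y M x := by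
  unfold bf
  rw [star_smul, smul_dotProduct, smul_eq_mul]
  rfl

theorem bf_smul_right (c : ℂ) (y x : Fin n → ℂ) (M : Matrix (Fin n) (Fin n) ℂ) : bf x M (c • y) = c * bf x M y := by
  unfold bf
  rw [Matrix.mulVec_smul, dotProduct_smul, smul_eq_mul]

theorem star_dot_comm (y x : Fin n → ℂ) : (starRingEnd ℂ) (star y ⬝ᵥ x) = star x ⬝ᵥ y := by
  unfold dotProduct
  rw [map_sum]
  apply Finset.sum_congr rfl
  intro j _
  simp [mul_comm]

theorem star_dot_self (x : Fin n → ℂ) : star x ⬝ᵥ x = (((∑ j, ‖x j‖ ^ 2 : ℝ)) : ℂ) := by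
  unfold dotProduct
  push_cast
  apply Finset.sum_congr rfl
  intro j _
  show (starRingEnd ℂ) (x j) * x j = _
  rw [mul_comm, Complex.mul_conj, Complex.normSq_eq_norm_sq]
  push_cast
  rfl

/-- the square of the norm -/
noncomputable def nq (x : Fin n → ℂ) : ℝ := ∑ j, ‖x j‖ ^ 2

theorem nq_nonneg (x : Fin n → ℂ) : 0 ≤ nq x := Finset.sum_nonneg fun _ _ => sq_nonneg _

end Q99.FP
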