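import Mathlib

/-!
# The scalar part: a triangular path and an integral identity
-/

set_option autoImplicit false
open Filter Topology MeasureTheory Set intervalIntegral
open scoped Real

namespace Q99.FP

/-! ### real inequalities -/

theorem ineqA {c s r x y : ℝ} (hsc : s ≤ c) (hs : 0 ≤ s) (hr0 : 0 ≤ r) (hr : 2 * r * c ≤ 1) (hx : 0 ≤ x) (hy : y ≤ 1) :
    0 ≤ r * (c - y * s) + x * (1 - r * c) := by
  have h1 : 0 ≤ c - y * s := by nlinarith
  have h2 : 0 ≤ 1 - r * c := by linarith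
  positivity

theorem ineqA' {c s r x y : ℝ} (hsc : s ≤ c) (hs : 0 ≤ s) (hr0 : 0 ≤ r) (hr : 2 * r * c ≤ 1) (hx : 0 < x) (hy : y ≤ 1) :
    0 < r * (c - y * s) + x * (1 - r * c) := by
  have h1 : 0 ≤ c - y * s := by nlinarith
  have h2 : 0 < 1 - r * c := by linarith
  have h3 : 0 < x * (1 - r * c) := mul_pos hx h2
  have h4 : 0 ≤ r * (c - y * s) := mul_nonneg hr0 h1
  linarith

/-- the quadratic of the second segment -/
theorem ineqQ {c s r : ℝ} (hcs : c ^ 2 + s ^ 2 = 1) (hs : 0 ≤ s) (hsc : s ≤ c) (hc : 0 < c) :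
    0 ≤ c * (1 - 2 * r * c + r ^ 2) - r * (2 * s * c - r * (3 * s - 4 * s ^ 3)) := by
  have h1 : c * (c * (1 - 2 * r * c + r ^ 2) - r * (2 * s * c - r * (3 * s - 4 * s ^ 3))) =
      (c - c * (c + s) * r) ^ 2 + r ^ 2 * (c * s * (c ^ 2 - s ^ 2)) := by
    have hs2 : s ^ 2 = 1 - c ^ 2 := by linarith
    have hs3 : s ^ 3 = s * (1 - c ^ 2) := by rw [← hs2]; ring
    rw [hs3]
    have e : (c - c * (c + s) * r) ^ 2 + r ^ 2 * (c * s * (c ^ 2 - s ^ 2)) =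
        c ^ 2 - 2 * c ^ 2 * (c + s) * r + r ^ 2 * (c ^ 2 * (c ^ 2 + 2 * c * s + s ^ 2) + c * s * (c ^ 2 - s ^ 2)) := by ring
    rw [e, hs2]
    ring
  have h2 : 0 ≤ (c - c * (c + s) * r) ^ 2 + r ^ 2 * (c * s * (c ^ 2 - s ^ 2)) := by
    have : 0 ≤ c ^ 2 - s ^ 2 := by nlinarith
    positivity
  rw [← h1] at h2
  exact nonneg_of_mul_nonneg_right h2 hc

theorem ineqX {c s r : ℝ} (hcs : c ^ 2 + s ^ 2 = 1) (hs : 0 ≤ s) (hsc : s ≤ c) (hc : 0 < c) (hr0 : 0 ≤ r)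
    (hr : 2 * r * c ≤ 1) : 0 ≤ (c ^ 2 - s ^ 2) - r * (4 * c ^ 3 - 3 * c) := by
  have h1 : 0 ≤ c ^ 2 - s ^ 2 := by nlinarith
  rcases le_total (4 * c ^ 2 - 3) 0 with h | h
  · have : 0 ≤ r * (c * (3 - 4 * c ^ 2)) := mul_nonneg hr0 (mul_nonneg hc.le (by linarith))
    nlinarith
  · have : r * c * (4 * c ^ 2 - 3) ≤ 1 / 2 * (4 * c ^ 2 - 3) := mul_le_mul_of_nonneg_right (by linarith) h
    nlinarith

theorem ineqX' {c s r : ℝ} (hcs : c ^ 2 + s ^ 2 = 1) (hs : 0 ≤ s) (hsc : s ≤ c) (hc : 0 < c) (hr0 : 0 < r)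
    (hr : 2 * r * c ≤ 1) : 0 < (c ^ 2 - s ^ 2) - r * (4 * c ^ 3 - 3 * c) := by
  have h1 : 0 ≤ c ^ 2 - s ^ 2 := by nlinarith
  rcases lt_or_ge (4 * c ^ 2 - 3) 0 with h | h
  · have : 0 < r * (c * (3 - 4 * c ^ 2)) := mul_pos hr0 (mul_pos hc (by linarith))
    nlinarith
  · have : r * c * (4 * c ^ 2 - 3) ≤ 1 / 2 * (4 * c ^ 2 - 3) := mul_le_mul_of_nonneg_right (by linarith) h
    nlinarith

theorem ineqB {c s r x y : ℝ} (hcs : c ^ 2 + s ^ 2 = 1) (hs : 0 ≤ s) (hsc : s ≤ c) (hc : 0 < c) (hr0 : 0 ≤ r)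
    (hr : 2 * r * c ≤ 1) (hx : 0 ≤ x) (hy : -1 ≤ y) :
    0 ≤ c * (1 - 2 * r * c + r ^ 2) + r * (x * ((c ^ 2 - s ^ 2) - r * (4 * c ^ 3 - 3 * c)) +
      y * (2 * s * c - r * (3 * s - 4 * s ^ 3))) := by
  have h1 := ineqQ (r := r) hcs hs hsc hc
  have h2 := mul_nonneg hx (ineqX hcs hs hsc hc hr0 hr)
  have h3 : 0 ≤ 2 * s * c - r * (3 * s - 4 * s ^ 3) := by
    have e : 3 * s - 4 * s ^ 3 = s * (4 * c ^ 2 - 1) := by
      have : s ^ 2 = 1 - c ^ 2 := by linarith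
      have : s ^ 3 = s * (1 - c ^ 2) := by rw [← this]; ring
      rw [this]
      ring
    rw [e]
    have h4 : r * (4 * c ^ 2 - 1) ≤ 2 * c := by
      have : r * c * c ≤ 1 / 2 * c := mul_le_mul_of_nonneg_right (by linarith) hc.le
      nlinarith
    have h5 := mul_le_mul_of_nonneg_left h4 hs
    linarith
  have h4 : -(2 * s * c - r * (3 * s - 4 * s ^ 3)) ≤ y * (2 * s * c - r * (3 * s - 4 * s ^ 3)) := by
    have := mul_le_mul_of_nonneg_right hy h3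
    linarith
  have h5 := mul_le_mul_of_nonneg_left h4 hr0
  have h6 := mul_nonneg hr0 h2
  linarith

theorem ineqB' {c s r x y : ℝ} (hcs : c ^ 2 + s ^ 2 = 1) (hs : 0 ≤ s) (hsc : s ≤ c) (hc : 0 < c) (hr0 : 0 ≤ r)
    (hr : 2 * r * c ≤ 1) (hx : 0 < x) (hy : -1 ≤ y) :
    0 < c * (1 - 2 * r * c + r ^ 2) + r * (x * ((c ^ 2 - s ^ 2) - r * (4 * c ^ 3 - 3 * c)) +
      y * (2 * s * c - r * (3 * s - 4 * s ^ 3))) := by
  rcases hr0.eq_or_lt with h0 | h0
  · rw [← h0]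
    nlinarith
  · have h1 := ineqB (x := 0) hcs hs hsc hc hr0 hr le_rfl hy
    have h2 := mul_pos h0 (mul_pos hx (ineqX' hcs hs hsc hc h0 hr))
    linarith

/-! ### the path -/

section path

variable (c s : ℝ)

/-- `exp (-iθ)` -/
noncomputable def EE : ℂ := (c : ℂ) - s * Complex.I
/-- `exp (iθ)` -/
noncomputable def FF : ℂ := (c : ℂ) + s * Complex.I

/-- the integrand on the first segment -/
noncomputable def gA (r : ℝ) (a : ℂ) : ℂ := r * EE c s ^ 2 / (r * EE c s + (1 - r * EE c s) * EE c s ^ 2 * a)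
/-- the integrand on the second segment -/
noncomputable def gB (r : ℝ) (a : ℂ) : ℂ := FF c s * (1 - r * FF c s) / (1 - r * FF c s + r * EE c s * a)

variable {c s}

theorem EF (hcs : c ^ 2 + s ^ 2 = 1) : EE c s * FF c s = 1 := by
  unfold EE FF
  have h : ((c : ℂ)) ^ 2 + (s : ℂ) ^ 2 = 1 := by exact_mod_cast hcs
  linear_combination h - (s : ℂ) ^ 2 * Complex.I_sq

theorem conj_EE : (starRingEnd ℂ) (EE c s) = FF c s := by
  unfold EE FF
  simp

theorem conj_FF : (starRingEnd ℂ) (FF c s) = EE c s := by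
  unfold EE FF
  simp [sub_eq_add_neg]

theorem EE_sq_eq : EE c s ^ 2 = ((c ^ 2 - s ^ 2 : ℝ) : ℂ) - ((2 * s * c : ℝ) : ℂ) * Complex.I := by
  unfold EE
  push_cast
  linear_combination (s : ℂ) ^ 2 * Complex.I_sq

theorem FF_sq_eq : FF c s ^ 2 = ((c ^ 2 - s ^ 2 : ℝ) : ℂ) + ((2 * s * c : ℝ) : ℂ) * Complex.I := by
  unfold FF
  push_cast
  linear_combination (s : ℂ) ^ 2 * Complex.I_sq

theorem EE_cube_eq (hcs : c ^ 2 + s ^ 2 = 1) : EE c s ^ 3 =
    ((4 * c ^ 3 - 3 * c : ℝ) : ℂ) - ((3 * s - 4 * s ^ 3 : ℝ) : ℂ) * Complex.I := by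
  have h : ((c : ℂ)) ^ 2 + (s : ℂ) ^ 2 = 1 := by exact_mod_cast hcs
  unfold EE
  push_cast
  linear_combination (3 * (c : ℂ) * s ^ 2 - s ^ 3 * Complex.I) * Complex.I_sq - 3 * (c : ℂ) * h - 3 * Complex.I * s * h

/-- real part on the first segment -/
theorem reA (hcs : c ^ 2 + s ^ 2 = 1) (r : ℝ) (z : ℂ) :
    (FF c s ^ 2 * (r * EE c s + (1 - r * EE c s) * EE c s ^ 2 * z)).re = r * (c - z.im * s) + z.re * (1 - r * c) := by
  have h := EF hcs
  have e : FF c s ^ 2 * (r * EE c s + (1 - r * EE c s) * EE c s ^ 2 * z) = r * FF c s + (1 - r * EE c s) * z := by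
    linear_combination (r * FF c s + (1 - r * EE c s) * z * (EE c s * FF c s + 1)) * h
  rw [e]
  unfold EE FF
  simp
  ring

/-- real part on the second segment -/
theorem reB (hcs : c ^ 2 + s ^ 2 = 1) (r : ℝ) (z : ℂ) :
    (EE c s * (1 - r * EE c s) * (1 - r * FF c s + r * EE c s * z)).re =
      c * (1 - 2 * r * c + r ^ 2) + r * (z.re * ((c ^ 2 - s ^ 2) - r * (4 * c ^ 3 - 3 * c)) +
      z.im * (2 * s * c - r * (3 * s - 4 * s ^ 3))) := by
  have h := EF hcs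
  have hsum : EE c s + FF c s = ((2 * c : ℝ) : ℂ) := by
    unfold EE FF
    push_cast
    ring
  have e : EE c s * (1 - r * EE c s) * (1 - r * FF c s + r * EE c s * z) =
      EE c s * ((1 - 2 * r * c + r ^ 2 : ℝ) : ℂ) + r * (EE c s ^ 2 - r * EE c s ^ 3) * z := by
    push_cast at hsum ⊢
    linear_combination (EE c s * r ^ 2) * h - (EE c s * r) * hsum
  rw [e, EE_sq_eq, EE_cube_eq hcs]
  generalize 1 - 2 * r * c + r ^ 2 = p
  generalize c ^ 2 - s ^ 2 = q1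
  generalize 2 * s * c = q2
  generalize 4 * c ^ 3 - 3 * c = q3
  generalize 3 * s - 4 * s ^ 3 = q4
  unfold EE
  simp
  ring

/-- the denominators stay in the slit plane -/
theorem slitA (hcs : c ^ 2 + s ^ 2 = 1) (hs : 0 ≤ s) (hsc : s ≤ c) {r : ℝ} (hr0 : 0 ≤ r)
    (hr : 2 * r * c ≤ 1) {z : ℂ} (hx : 0 < z.re) (hy : z.im ≤ 1) :
    r * EE c s + (1 - r * EE c s) * EE c s ^ 2 * z ∈ Complex.slitPlane := by
  rw [Complex.mem_slitPlane_iff]
  by_contra hcon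
  push Not at hcon
  obtain ⟨h1, h2⟩ := hcon
  have h3 := reA hcs r z
  have h4 := ineqA' hsc hs hr0 hr hx hy
  rw [← h3, Complex.mul_re, h2, mul_zero, sub_zero, FF_sq_eq] at h4
  have h5 : (((c ^ 2 - s ^ 2 : ℝ) : ℂ) + ((2 * s * c : ℝ) : ℂ) * Complex.I).re = c ^ 2 - s ^ 2 := by
    rw [Complex.add_re, Complex.ofReal_re, Complex.re_ofReal_mul, Complex.I_re, mul_zero, add_zero]
  rw [h5] at h4
  have h6 : 0 ≤ c ^ 2 - s ^ 2 := by nlinarith
  have h7 := mul_nonpos_of_nonneg_of_nonpos h6 h1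
  linarith

theorem slitB (hcs : c ^ 2 + s ^ 2 = 1) (hs : 0 ≤ s) (hsc : s ≤ c) (hc : 0 < c) {r : ℝ} (hr0 : 0 ≤ r)
    (hr : 2 * r * c ≤ 1) {z : ℂ} (hx : 0 < z.re) (hy : -1 ≤ z.im) :
    1 - r * FF c s + r * EE c s * z ∈ Complex.slitPlane := by
  rw [Complex.mem_slitPlane_iff]
  by_contra hcon
  push Not at hcon
  obtain ⟨h1, h2⟩ := hcon
  have h3 := reB hcs r z
  have h4 := ineqB' hcs hs hsc hc hr0 hr hx hy
  rw [← h3, Complex.mul_re, h2, mul_zero, sub_zero] at h4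
  have h5 : (EE c s * (1 - r * EE c s)).re = c - r * (c ^ 2 - s ^ 2) := by
    have : EE c s * (1 - r * EE c s) = EE c s - r * EE c s ^ 2 := by ring
    rw [this, EE_sq_eq]
    generalize c ^ 2 - s ^ 2 = q1
    generalize 2 * s * c = q2
    unfold EE
    simp
  rw [h5] at h4
  have h6 : 0 ≤ c - r * (c ^ 2 - s ^ 2) := by
    have h8 : r * c * c ≤ 1 / 2 * c := mul_le_mul_of_nonneg_right (by linarith) hc.le
    have h9 : 0 ≤ r * s ^ 2 := by positivity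
    nlinarith
  have h7 := mul_nonpos_of_nonneg_of_nonpos h6 h1
  linarith

/-- the integral of the integrands along the path -/
noncomputable def JJ (c s : ℝ) (a : ℂ) : ℂ := (∫ r in (0 : ℝ)..(1 / (2 * c)), gA c s r a) + ∫ r in (0 : ℝ)..(1 / (2 * c)), gB c s r a

theorem mem_uIcc_aux {r : ℝ} (hc : 0 < c) (hr : r ∈ uIcc (0 : ℝ) (1 / (2 * c))) : 0 ≤ r ∧ 2 * r * c ≤ 1 := by
  rw [uIcc_of_le (by positivity)] at hr
  refine ⟨hr.1, ?_⟩
  have := hr.2
  rw [le_div_iff₀ (by positivity)] at this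
  linarith

theorem contA (hcs : c ^ 2 + s ^ 2 = 1) (hs : 0 ≤ s) (hsc : s ≤ c) (hc : 0 < c) {a : ℂ} (hx : 0 < a.re)
    (hy : a.im ≤ 1) : ContinuousOn (fun r => gA c s r a) (uIcc (0 : ℝ) (1 / (2 * c))) := by
  unfold gA
  apply ContinuousOn.div
  · fun_prop
  · fun_prop
  · intro r hr
    obtain ⟨h0, h1⟩ := mem_uIcc_aux hc hr
    exact Complex.slitPlane_ne_zero (slitA hcs hs hsc h0 h1 hx hy)

theorem contB (hcs : c ^ 2 + s ^ 2 = 1) (hs : 0 ≤ s) (hsc : s ≤ c) (hc : 0 < c) {a : ℂ} (hx : 0 < a.re)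
    (hy : -1 ≤ a.im) : ContinuousOn (fun r => gB c s r a) (uIcc (0 : ℝ) (1 / (2 * c))) := by
  unfold gB
  apply ContinuousOn.div
  · fun_prop
  · fun_prop
  · intro r hr
    obtain ⟨h0, h1⟩ := mem_uIcc_aux hc hr
    exact Complex.slitPlane_ne_zero (slitB hcs hs hsc hc h0 h1 hx hy)

/-- the integral identity -/
theorem JJ_eq (hcs : c ^ 2 + s ^ 2 = 1) (hs : 0 ≤ s) (hsc : s ≤ c) (hc : 0 < c) {a : ℂ} (hx : 0 < a.re)
    (hy : |a.im| ≤ 1) : (1 - EE c s ^ 2 * a) ^ 2 * JJ c s a =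
      (EE c s ^ 2 * a) * Complex.log (EE c s ^ 2 * a) + 1 - EE c s ^ 2 * a := by
  obtain ⟨hy1, hy2⟩ := abs_le.1 hy
  have hEF := EF hcs
  obtain ⟨w, hw⟩ : ∃ w, w = EE c s ^ 2 * a := ⟨_, rfl⟩
  rw [← hw]
  have hG : ∀ ν : ℂ, w + (1 - w) * ν ∈ Complex.slitPlane →
      HasDerivAt (fun ν => ν * (1 - w) - w * Complex.log (w + (1 - w) * ν)) ((1 - w) ^ 2 * (ν / (w + (1 - w) * ν))) ν := by
    intro ν hν
    have hne := Complex.slitPlane_ne_zero hν
    have h1 : HasDerivAt (fun ν : ℂ => w + (1 - w) * ν) (1 - w) ν := by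
      simpa using ((hasDerivAt_id ν).const_mul (1 - w)).const_add w
    have h2 := h1.clog hν
    have h3 := ((hasDerivAt_id ν).mul_const (1 - w)).sub (h2.const_mul w)
    refine h3.congr_deriv ?_
    field_simp
    ring
  have h1c : (1 : ℝ) / (2 * c) * (2 * c) = 1 := by field_simp
  -- first segment
  have hA : ∫ r in (0 : ℝ)..(1 / (2 * c)), (1 - w) ^ 2 * gA c s r a =
      ((((1 / (2 * c) : ℝ) : ℂ) * EE c s) * (1 - w) - w * Complex.log (w + (1 - w) * (((1 / (2 * c) : ℝ) : ℂ) * EE c s))) -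
      ((((0 : ℝ) : ℂ) * EE c s) * (1 - w) - w * Complex.log (w + (1 - w) * (((0 : ℝ) : ℂ) * EE c s))) := by
    apply integral_eq_sub_of_hasDerivAt (f := fun r : ℝ => ((r : ℂ) * EE c s) * (1 - w) - w * Complex.log (w + (1 - w) * ((r : ℂ) * EE c s)))
    · intro r hr
      obtain ⟨h0, h1⟩ := mem_uIcc_aux hc hr
      have hM : w + (1 - w) * ((r : ℂ) * EE c s) = r * EE c s + (1 - r * EE c s) * EE c s ^ 2 * a := by
        rw [hw]
        ring
      have hsl := slitA hcs hs hsc h0 h1 hx hy2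
      rw [← hM] at hsl
      have h2 : HasDerivAt (fun r : ℝ => (r : ℂ) * EE c s) (EE c s) r := by
        simpa using (Complex.ofRealCLM.hasDerivAt (x := r)).mul_const (EE c s)
      have h3 := (hG _ hsl).comp r h2
      refine h3.congr_deriv ?_
      unfold gA
      rw [← hM]
      ring
    · exact ((contA hcs hs hsc hc hx hy2).const_mul _).intervalIntegrable
  have hB : ∫ r in (0 : ℝ)..(1 / (2 * c)), (1 - w) ^ 2 * gB c s r a =
      (-(((1 - ((1 / (2 * c) : ℝ) : ℂ) * FF c s)) * (1 - w) - w * Complex.log (w + (1 - w) * (1 - ((1 / (2 * c) : ℝ) : ℂ) * FF c s)))) -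
      (-((1 - ((0 : ℝ) : ℂ) * FF c s) * (1 - w) - w * Complex.log (w + (1 - w) * (1 - ((0 : ℝ) : ℂ) * FF c s)))) := by
    apply integral_eq_sub_of_hasDerivAt (f := fun r : ℝ => -((1 - (r : ℂ) * FF c s) * (1 - w) - w * Complex.log (w + (1 - w) * (1 - (r : ℂ) * FF c s))))
    · intro r hr
      obtain ⟨h0, h1⟩ := mem_uIcc_aux hc hr
      have hM : w + (1 - w) * (1 - (r : ℂ) * FF c s) = 1 - r * FF c s + r * EE c s * a := by
        rw [hw]
        linear_combination (r * EE c s * a) * hEF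
      have hsl := slitB hcs hs hsc hc h0 h1 hx hy1
      rw [← hM] at hsl
      have h2 : HasDerivAt (fun r : ℝ => 1 - (r : ℂ) * FF c s) (-FF c s) r := by
        simpa using ((Complex.ofRealCLM.hasDerivAt (x := r)).mul_const (FF c s)).const_sub 1
      have h3 := ((hG _ hsl).comp r h2).neg
      refine h3.congr_deriv ?_
      unfold gB
      rw [← hM]
      ring
    · exact ((contB hcs hs hsc hc hx hy1).const_mul _).intervalIntegrable
  have hjoin : 1 - ((1 / (2 * c) : ℝ) : ℂ) * FF c s = ((1 / (2 * c) : ℝ) : ℂ) * EE c s := by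
    have h2 : ((1 / (2 * c) : ℝ) : ℂ) * ((2 * c : ℝ) : ℂ) = 1 := by exact_mod_cast h1c
    unfold EE FF
    push_cast at h2 ⊢
    linear_combination -h2
  rw [intervalIntegral.integral_const_mul] at hA hB
  rw [hjoin] at hB
  unfold JJ
  rw [mul_add, hA, hB]
  simp only [Complex.ofReal_zero, zero_mul, mul_zero, add_zero, sub_zero, mul_one]
  have : w + (1 - w) = 1 := by ring
  rw [this, Complex.log_one]
  ring

end path

end Q99.FP
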